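import Pool.Agent.NLG.Tw

/-!
# Lists of handles; full blocks act transitively

Helper35, for MP_0707f5_ag (linear range).
-/

set_option autoImplicit false

namespace Pool.Agent.NLG

open Module
open SpQ (Hd WStep WReach WExt Good bare bd cj1)
open LGP (cyc)
open LGC (It IStep hl GI Kl IReach cls St_All St_Gek St_Vek)

section
variable {Γ : Type} [Group Γ] {k : ℕ}

/-- a step from a list of handles -/
theorem hl_step {L : List (Hd Γ k)} {Z : List (It Γ k)} (h : IStep (hl L) Z) :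
    ∃ L', Z = hl L' ∧ WStep L L' := by
  generalize hZ : hl L = Z₀ at h
  unfold LGC.hl at hZ
  cases h with
  | st X Y M M' hM =>
    obtain ⟨s₁, t₁, rfl, h1, rfl⟩ := List.map_eq_append_iff.1 hZ
    obtain ⟨s₂, t₂, rfl, rfl, h2⟩ := List.map_eq_append_iff.1 h1
    have h3 : t₂ = M := List.map_injective_iff.2 Sum.inl_injective h2
    subst h3
    refine ⟨s₂ ++ M' ++ t₁, ?_, hM.context s₂ t₁⟩
    rw [LGC.hl_append, LGC.hl_append]
    rfl
  | br X Y i j =>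
    obtain ⟨s₁, t₁, rfl, rfl, h1⟩ := List.map_eq_append_iff.1 hZ
    obtain ⟨⟨⟨a, b⟩, ⟨p, q⟩⟩, t₂, rfl, rfl, h2⟩ := List.map_eq_cons_iff.1 h1
    obtain ⟨⟨⟨c, d⟩, ⟨p', q'⟩⟩, t₃, rfl, rfl, rfl⟩ := List.map_eq_cons_iff.1 h2
    refine ⟨_, ?_, WStep.br s₁ t₃ a b c d p q p' q'⟩
    simp [LGC.hl, LGC.icj, LGC.ib, SpQ.cj1, SpQ.bd, mul_assoc]
  | br' X Y i j =>
    obtain ⟨s₁, t₁, rfl, rfl, h1⟩ := List.map_eq_append_iff.1 hZ
    obtain ⟨⟨⟨a, b⟩, ⟨p, q⟩⟩, t₂, rfl, rfl, h2⟩ := List.map_eq_cons_iff.1 h1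
    obtain ⟨⟨⟨c, d⟩, ⟨p', q'⟩⟩, t₃, rfl, rfl, rfl⟩ := List.map_eq_cons_iff.1 h2
    refine ⟨_, ?_, WStep.br' s₁ t₃ a b c d p q p' q'⟩
    simp [LGC.hl, LGC.icj, LGC.ib, SpQ.cj1, SpQ.bd, mul_assoc]
  | ab X Y a b y o =>
    obtain ⟨s₁, t₁, rfl, rfl, h1⟩ := List.map_eq_append_iff.1 hZ
    obtain ⟨p, t₂, rfl, h2, h3⟩ := List.map_eq_cons_iff.1 h1
    obtain ⟨q, t₃, rfl, h4, -⟩ := List.map_eq_cons_iff.1 h3
    exact absurd h4 Sum.inl_ne_inr
  | ab' X Y a b y o =>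
    obtain ⟨s₁, t₁, rfl, rfl, h1⟩ := List.map_eq_append_iff.1 hZ
    obtain ⟨p, t₂, rfl, h2, h3⟩ := List.map_eq_cons_iff.1 h1
    obtain ⟨q, t₃, rfl, h4, -⟩ := List.map_eq_cons_iff.1 h3
    exact absurd h4 Sum.inl_ne_inr

/-- a list of handles reaches only lists of handles -/
theorem hl_reach {L : List (Hd Γ k)} {Z : List (It Γ k)} (h : IReach (hl L) Z) :
    ∃ L', Z = hl L' ∧ WReach L L' := by
  unfold LGC.IReach at h
  induction h with
  | refl => exact ⟨L, rfl, WReach.refl _⟩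
  | tail _ hs ih =>
    obtain ⟨L', rfl, hr⟩ := ih
    obtain ⟨L'', rfl, hs'⟩ := hl_step hs
    exact ⟨L'', rfl, hr.trans (WReach.of_step hs')⟩

variable {K U : Type} [Field K] [AddCommGroup U] [Module K U]

/-- spare letters of a list of handles are letters of it -/
theorem Ys_nil {N : Subgroup Γ} {R : N →* Module.End K U} {B : List (Hd Γ k)} {y : N}
    (hy : y ∈ Ys N R [] B) : (y : Γ) ∈ SpQ.fc B (-1) := by
  obtain ⟨X', B', p, h1, -, -, -, h5⟩ := hy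
  rw [List.nil_append] at h1
  obtain ⟨L', h2, h3⟩ := hl_reach h1
  unfold LGC.hl at h2
  obtain ⟨s, t, rfl, -, h4⟩ := List.map_eq_append_iff.1 h2.symm
  have h6 : t = B' ++ [p] := List.map_injective_iff.2 Sum.inl_injective h4
  subst h6
  refine SpQ.fc_mono ⟨s ++ B', ?_⟩ _ h5
  rw [List.append_assoc]
  exact h3

/-- **BLO**.  The letters of a full block act transitively on the small modules. -/
theorem blo (hA : St_All) (hG : St_Gek) [FiniteDimensional K U] {N : Subgroup Γ} [N.Normal]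
    {R : N →* Module.End K U} {m₀ : ℕ} (hE : Ess k N R m₀) (P : List (Hd Γ k))
    (hP : ∀ h ∈ P, Kl N h) (hf : Full N R [] P) (z : U)
    (hlen : m₀ + finrank K (cyc R z ⊤) + 1 ≤ P.length) : cyc R z ⊤ ≤ Sp N R z P :=
  tw hA hG hE [] P hP hf z hlen _ fun _ hy => mem_Sp (Ys_nil hy)

end

end Pool.Agent.NLG
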