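import Pool.Agent.NLG.Defs

/-!
# Submodules between two subspaces

Helper35, for MP_0707f5_ag (near-linear range, after an idea of helper21).

`St`: the subspaces which are stable under a group; each stable subspace has a stable complement and each
stable subspace which is not zero contains one of dimension `r`.  `Y`: a set of endomorphisms which preserve
the stable subspaces, such that for `z` in a stable subspace of dimension at most `2 r` each subspace
which contains all `y z` contains a stable subspace which contains `z`.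
If `Z ≤ Z'`, `Y Z ≤ Z'` and `dim Z' < dim Z + r` then there is a stable subspace between `Z` and `Z'`.
-/

set_option autoImplicit false

namespace Pool.Agent.NLG

open Module

section lin
variable {K U : Type} [Field K] [AddCommGroup U] [Module K U] [FiniteDimensional K U]

private theorem si' (W W' : Submodule K U) :
    finrank K (W ⊔ W' : Submodule K U) + finrank K (W ⊓ W' : Submodule K U) =
      finrank K W + finrank K W' :=
  Submodule.finrank_sup_add_finrank_inf_eq W W'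

/-- the part of `W ⊇ S` in a complement of `S` -/
private theorem part {S C C₁ W : Submodule K U} (hi : S ⊓ C₁ = ⊥) (hs : S ⊔ C₁ = C)
    (hSW : S ≤ W) (hWC : W ≤ C) :
    S ⊔ (W ⊓ C₁) = W ∧ finrank K S + finrank K (W ⊓ C₁ : Submodule K U) = finrank K W := by
  have h1 : S ⊔ (W ⊓ C₁) = W := by
    have h2 : S ⊔ (C₁ ⊓ W) = (S ⊔ C₁) ⊓ W := (sup_inf_assoc_of_le C₁ hSW).symm
    rw [inf_comm, h2, hs]
    exact inf_eq_right.2 hWC
  refine ⟨h1, ?_⟩
  have h2 := si' S (W ⊓ C₁)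
  have h3 : S ⊓ (W ⊓ C₁) = ⊥ := by
    rw [eq_bot_iff, ← hi]
    exact inf_le_inf le_rfl inf_le_right
  rw [h1, h3, finrank_bot] at h2
  omega

/-- **LIN**. -/
theorem lin (St : Submodule K U → Prop) (r : ℕ)
    (hbot : St ⊥) (hsup : ∀ S T, St S → St T → St (S ⊔ T)) (hinf : ∀ S T, St S → St T → St (S ⊓ T))
    (hcompl : ∀ S, St S → ∃ T, St T ∧ S ⊓ T = ⊥ ∧ S ⊔ T = ⊤)
    (hdim : ∀ S, St S → S ≠ ⊥ → ∃ T, St T ∧ T ≤ S ∧ finrank K T = r ∧ T ≠ ⊥)
    (Y : Set (Module.End K U)) (hY : ∀ S, St S → ∀ y ∈ Y, ∀ s ∈ S, y s ∈ S)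
    (hF : ∀ (z : U) (Q : Submodule K U), St Q → z ∈ Q → finrank K Q ≤ 2 * r →
      ∀ W : Submodule K U, (∀ y ∈ Y, y z ∈ W) → ∃ T, St T ∧ z ∈ T ∧ T ≤ W) :
    ∀ (n : ℕ) (C Z Z' : Submodule K U), finrank K C ≤ n → St C → Z ≤ Z' → Z' ≤ C →
      (∀ y ∈ Y, ∀ z ∈ Z, y z ∈ Z') → finrank K Z' < finrank K Z + r →
      ∃ N, St N ∧ Z ≤ N ∧ N ≤ Z' := by
  intro n
  induction n with
  | zero =>
    intro C Z Z' hn hC hZ hZ' hYZ hd
    have h1 : C = ⊥ := Submodule.finrank_eq_zero.1 (by omega)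
    rw [h1, le_bot_iff] at hZ'
    rw [hZ'] at hZ ⊢
    exact ⟨⊥, hbot, hZ, le_rfl⟩
  | succ n ih =>
    intro C Z Z' hn hC hZ hZ' hYZ hd
    -- the step with a stable subspace `S` of dimension `r` in `C`
    have step : ∀ S, St S → S ≤ C → finrank K S = r → S ≠ ⊥ →
        ∃ N₁, St N₁ ∧ S ⊓ N₁ = ⊥ ∧ N₁ ≤ C ∧ Z ≤ S ⊔ N₁ ∧ S ⊔ N₁ ≤ Z' ⊔ S := by
      intro S hS hSC hSr hSb
      obtain ⟨T, hT, hST, hSTt⟩ := hcompl S hS
      have hr : 0 < r := by
        rw [← hSr]
        exact Nat.pos_of_ne_zero fun h => hSb (Submodule.finrank_eq_zero.1 h)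
      set C₁ := C ⊓ T with hC₁
      have hStC₁ : St C₁ := hinf _ _ hC hT
      have hi : S ⊓ C₁ = ⊥ := by
        rw [eq_bot_iff, ← hST]
        exact inf_le_inf le_rfl inf_le_right
      have hs : S ⊔ C₁ = C := by
        have h2 : S ⊔ (T ⊓ C) = (S ⊔ T) ⊓ C := (sup_inf_assoc_of_le T hSC).symm
        rw [hC₁, inf_comm, h2, hSTt, top_inf_eq]
      obtain ⟨-, hdC⟩ := part hi hs hSC le_rfl
      rw [inf_eq_right.2 (show C₁ ≤ C from inf_le_left)] at hdC
      obtain ⟨e1, d1⟩ := part hi hs (W := Z ⊔ S) le_sup_right (sup_le (hZ.trans hZ') hSC)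
      obtain ⟨e2, d2⟩ := part hi hs (W := Z' ⊔ S) le_sup_right (sup_le hZ' hSC)
      have h3 := si' Z S
      have h4 := si' Z' S
      have h5 : finrank K (Z ⊓ S : Submodule K U) ≤ finrank K (Z' ⊓ S : Submodule K U) :=
        Submodule.finrank_mono (inf_le_inf hZ le_rfl)
      obtain ⟨N₁, hN₁, h6, h7⟩ := ih C₁ ((Z ⊔ S) ⊓ C₁) ((Z' ⊔ S) ⊓ C₁) (by omega) hStC₁
        (inf_le_inf (sup_le_sup hZ le_rfl) le_rfl) inf_le_right (by
          intro y hy z hz
          obtain ⟨hz1, hz2⟩ := Submodule.mem_inf.1 hz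
          refine Submodule.mem_inf.2 ⟨?_, hY _ hStC₁ y hy z hz2⟩
          obtain ⟨a, ha, b, hb, rfl⟩ := Submodule.mem_sup.1 hz1
          rw [map_add]
          exact Submodule.add_mem_sup (hYZ y hy a ha) (hY S hS y hy b hb)) (by omega)
      refine ⟨N₁, hN₁, ?_, h7.trans (inf_le_right.trans inf_le_left), ?_, ?_⟩
      · rw [eq_bot_iff, ← hi]
        exact inf_le_inf le_rfl (h7.trans inf_le_right)
      · refine le_trans le_sup_left (le_trans (le_of_eq e1.symm) (sup_le_sup le_rfl h6))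
      · refine le_trans (sup_le_sup le_rfl h7) (le_of_eq e2)
    by_cases hex : ∃ S, St S ∧ S ≤ Z' ∧ S ≠ ⊥
    · obtain ⟨S₀, hS₀, hS₀Z, hS₀b⟩ := hex
      obtain ⟨S, hS, hSS, hSr, hSb⟩ := hdim S₀ hS₀ hS₀b
      obtain ⟨N₁, hN₁, -, -, h1, h2⟩ := step S hS ((hSS.trans hS₀Z).trans hZ') hSr hSb
      refine ⟨S ⊔ N₁, hsup _ _ hS hN₁, h1, h2.trans ?_⟩
      exact sup_le le_rfl (hSS.trans hS₀Z)
    · push Not at hex
      -- a nonzero vector of `Z` with a small module is impossible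
      have hno : ∀ z ∈ Z, ∀ Q, St Q → z ∈ Q → finrank K Q ≤ 2 * r → z = 0 := by
        intro z hz Q hQ hzQ hd
        obtain ⟨T, hT, hzT, hTW⟩ := hF z Q hQ hzQ hd Z' fun y hy => hYZ y hy z hz
        have h1 := hex T hT hTW
        rw [h1, Submodule.mem_bot] at hzT
        exact hzT
      by_cases hZb : Z = ⊥
      · exact ⟨⊥, hbot, hZb.le, bot_le⟩
      exfalso
      obtain ⟨z₀, hz₀, hz₀'⟩ := Submodule.exists_mem_ne_zero_of_ne_bot hZb
      have hCb : C ≠ ⊥ := by
        intro h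
        have := hZ' (hZ hz₀)
        rw [h, Submodule.mem_bot] at this
        exact hz₀' this
      obtain ⟨S, hS, hSC, hSr, hSb⟩ := hdim C hC hCb
      obtain ⟨N₁, hN₁, hi, hN₁C, h1, h2⟩ := step S hS hSC hSr hSb
      by_cases hN₁b : N₁ = ⊥
      · rw [hN₁b, sup_bot_eq] at h1
        exact hz₀' (hno z₀ hz₀ S hS (h1 hz₀) (by omega))
      obtain ⟨S₂, hS₂, hS₂N, hS₂r, hS₂b⟩ := hdim N₁ hN₁ hN₁b
      have h3 : finrank K (S ⊔ S₂ : Submodule K U) = 2 * r := by
        have h4 := si' S S₂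
        have h5 : S ⊓ S₂ = ⊥ := by
          rw [eq_bot_iff, ← hi]
          exact inf_le_inf le_rfl hS₂N
        rw [h5, finrank_bot] at h4
        omega
      have h4 : finrank K (S ⊔ N₁ : Submodule K U) ≤ finrank K Z' + r := by
        have h5 := Submodule.finrank_mono h2
        have h6 := si' Z' S
        omega
      have h5 := si' Z (S ⊔ S₂)
      have h6 : finrank K (Z ⊔ (S ⊔ S₂) : Submodule K U) ≤
          finrank K (S ⊔ N₁ : Submodule K U) :=
        Submodule.finrank_mono (sup_le h1 (sup_le_sup le_rfl hS₂N))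
      have h7 : Z ⊓ (S ⊔ S₂) ≠ ⊥ := by
        intro h
        rw [h, finrank_bot] at h5
        omega
      obtain ⟨z, hz, hz'⟩ := Submodule.exists_mem_ne_zero_of_ne_bot h7
      obtain ⟨hz1, hz2⟩ := Submodule.mem_inf.1 hz
      exact hz' (hno z hz1 _ (hsup _ _ hS hS₂) hz2 h3.le)

end lin

end Pool.Agent.NLG
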