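import Pool.Agent.NLG.Defs

/-!
# Submodular functions of subspaces and near minimisers

Helper35, for MP_0707f5_ag (near-linear range, after an idea of helper21).

`dd W W' = dim (W + W') - dim (W ∩ W')` is a submodular function of `W`.  For a list `x` of
automorphisms let `F x U W` be the sum of `dd W (g U)` over `g` in `x`.  A minimiser `Z` of
`2 F + n dim` (`n` the length of `x`) is contained in each `W` with `2 F W < 2 min F + n`, and a
minimiser of `2 F - n dim` contains each such `W`.
-/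

set_option autoImplicit false

namespace Pool.Agent.NLG

open Module

section sub
variable {K V : Type} [Field K] [AddCommGroup V] [Module K V] [FiniteDimensional K V]

/-- the distance of two subspaces -/
noncomputable def dd (W W' : Submodule K V) : ℤ :=
  (finrank K (W ⊔ W' : Submodule K V) : ℤ) - finrank K (W ⊓ W' : Submodule K V)

private theorem si (W W' : Submodule K V) :
    (finrank K (W ⊔ W' : Submodule K V) : ℤ) + finrank K (W ⊓ W' : Submodule K V) =
      finrank K W + finrank K W' := by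
  exact_mod_cast Submodule.finrank_sup_add_finrank_inf_eq W W'

private theorem fm {W W' : Submodule K V} (h : W ≤ W') :
    (finrank K W : ℤ) ≤ finrank K W' := by
  exact_mod_cast Submodule.finrank_mono h

/-- the distance is submodular -/
theorem dd_sub (A B C : Submodule K V) :
    dd (A ⊔ B) C + dd (A ⊓ B) C ≤ dd A C + dd B C := by
  have h1 := si (A ⊔ C) (B ⊔ C)
  have h2 := si (A ⊓ C) (B ⊓ C)
  have h3 : (finrank K ((A ⊓ B) ⊔ C : Submodule K V) : ℤ) ≤
      finrank K ((A ⊔ C) ⊓ (B ⊔ C) : Submodule K V) := fm (by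
    refine sup_le ?_ (le_inf le_sup_right le_sup_right)
    exact inf_le_inf le_sup_left le_sup_left)
  have h4 : (finrank K ((A ⊓ C) ⊔ (B ⊓ C) : Submodule K V) : ℤ) ≤
      finrank K ((A ⊔ B) ⊓ C : Submodule K V) := fm (by
    refine sup_le ?_ ?_
    · exact inf_le_inf le_sup_left le_rfl
    · exact inf_le_inf le_sup_right le_rfl)
  have e1 : (A ⊔ C) ⊔ (B ⊔ C) = (A ⊔ B) ⊔ C := by
    rw [sup_sup_sup_comm, sup_idem]
  have e2 : (A ⊓ C) ⊓ (B ⊓ C) = (A ⊓ B) ⊓ C := by
    rw [inf_inf_inf_comm, inf_idem]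
  rw [e1] at h1
  rw [e2] at h2
  unfold dd
  omega

theorem le_dd (W W' : Submodule K V) :
    (finrank K W : ℤ) - finrank K W' ≤ dd W W' ∧ (finrank K W' : ℤ) - finrank K W ≤ dd W W' := by
  have h1 : (finrank K W : ℤ) ≤ finrank K (W ⊔ W' : Submodule K V) := fm le_sup_left
  have h2 : (finrank K W' : ℤ) ≤ finrank K (W ⊔ W' : Submodule K V) := fm le_sup_right
  have h3 : (finrank K (W ⊓ W' : Submodule K V) : ℤ) ≤ finrank K W := fm inf_le_left
  have h4 : (finrank K (W ⊓ W' : Submodule K V) : ℤ) ≤ finrank K W' := fm inf_le_right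
  unfold dd
  constructor <;> omega

/-- the image of a subspace -/
def im (g : V ≃ₗ[K] V) (W : Submodule K V) : Submodule K V := W.map (g : V →ₗ[K] V)

omit [FiniteDimensional K V] in
theorem finrank_im (g : V ≃ₗ[K] V) (W : Submodule K V) : finrank K (im g W) = finrank K W :=
  LinearEquiv.finrank_map_eq g W

omit [FiniteDimensional K V] in
theorem im_sup (g : V ≃ₗ[K] V) (W W' : Submodule K V) : im g (W ⊔ W') = im g W ⊔ im g W' :=
  Submodule.map_sup _ _ _

omit [FiniteDimensional K V] in
theorem im_inf (g : V ≃ₗ[K] V) (W W' : Submodule K V) : im g (W ⊓ W') = im g W ⊓ im g W' :=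
  Submodule.map_inf _ g.injective

omit [FiniteDimensional K V] in
theorem im_mul (g h : V ≃ₗ[K] V) (W : Submodule K V) : im (g * h) W = im g (im h W) := by
  unfold im
  rw [← Submodule.map_comp]
  rfl

omit [FiniteDimensional K V] in
theorem im_one (W : Submodule K V) : im (1 : V ≃ₗ[K] V) W = W := by
  unfold im
  exact Submodule.map_id W

omit [FiniteDimensional K V] in
theorem im_mono (g : V ≃ₗ[K] V) {W W' : Submodule K V} (h : W ≤ W') : im g W ≤ im g W' :=
  Submodule.map_mono h

omit [FiniteDimensional K V] in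
theorem dd_im (g : V ≃ₗ[K] V) (W W' : Submodule K V) : dd (im g W) (im g W') = dd W W' := by
  unfold dd
  rw [← im_sup, ← im_inf, finrank_im, finrank_im]

theorem dd_le {k : ℕ} (g : V ≃ₗ[K] V) (U : Submodule K V)
    (h : finrank K (U ⊔ im g U : Submodule K V) ≤ finrank K U + k) :
    dd U (im g U) ≤ 2 * k := by
  have h1 := si U (im g U)
  rw [finrank_im] at h1
  unfold dd
  omega

/-- the sum of the distances to the images of `U` -/
noncomputable def FF (x : List (V ≃ₗ[K] V)) (U W : Submodule K V) : ℤ :=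
  (x.map fun g => dd W (im g U)).sum

omit [FiniteDimensional K V] in
theorem FF_cons (g : V ≃ₗ[K] V) (x : List (V ≃ₗ[K] V)) (U W : Submodule K V) :
    FF (g :: x) U W = dd W (im g U) + FF x U W := by
  unfold FF
  rw [List.map_cons, List.sum_cons]

omit [FiniteDimensional K V] in
theorem FF_nil (U W : Submodule K V) : FF ([] : List (V ≃ₗ[K] V)) U W = 0 := rfl

omit [FiniteDimensional K V] in
theorem FF_append (x y : List (V ≃ₗ[K] V)) (U W : Submodule K V) :
    FF (x ++ y) U W = FF x U W + FF y U W := by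
  unfold FF
  rw [List.map_append, List.sum_append]

omit [FiniteDimensional K V] in
theorem FF_mul (x : List (V ≃ₗ[K] V)) (y : V ≃ₗ[K] V) (U W : Submodule K V) :
    FF (x.map fun g => y * g) U (im y W) = FF x U W := by
  induction x with
  | nil => rfl
  | cons g x ih =>
    rw [List.map_cons, FF_cons, FF_cons, ih, im_mul, dd_im]

/-- `FF` is submodular -/
theorem FF_sub (x : List (V ≃ₗ[K] V)) (U A B : Submodule K V) :
    FF x U (A ⊔ B) + FF x U (A ⊓ B) ≤ FF x U A + FF x U B := by
  induction x with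
  | nil => simp [FF_nil]
  | cons g x ih =>
    have h := dd_sub A B (im g U)
    rw [FF_cons, FF_cons, FF_cons, FF_cons]
    omega

theorem le_FF (x : List (V ≃ₗ[K] V)) (U W : Submodule K V) :
    (x.length : ℤ) * ((finrank K W : ℤ) - finrank K U) ≤ FF x U W ∧
      (x.length : ℤ) * ((finrank K U : ℤ) - finrank K W) ≤ FF x U W := by
  induction x with
  | nil => simp [FF_nil]
  | cons g x ih =>
    obtain ⟨h1, h2⟩ := le_dd W (im g U)
    rw [finrank_im] at h1 h2
    rw [FF_cons, List.length_cons]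
    push_cast
    constructor
    · nlinarith [ih.1]
    · nlinarith [ih.2]

omit [FiniteDimensional K V] in
theorem le_FF' (x : List (V ≃ₗ[K] V)) (U W : Submodule K V) (c : ℤ)
    (h : ∀ g ∈ x, c ≤ dd W (im g U)) : (x.length : ℤ) * c ≤ FF x U W := by
  induction x with
  | nil => simp [FF_nil]
  | cons g x ih =>
    have h1 := h g List.mem_cons_self
    have h2 := ih fun y hy => h y (List.mem_cons_of_mem _ hy)
    rw [FF_cons, List.length_cons]
    push_cast
    linarith

theorem FF_le {k : ℕ} (x : List (V ≃ₗ[K] V)) (U : Submodule K V)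
    (h : ∀ g ∈ x, finrank K (U ⊔ im g U : Submodule K V) ≤ finrank K U + k) :
    FF x U U ≤ x.length * (2 * k) := by
  induction x with
  | nil => simp [FF_nil]
  | cons g x ih =>
    have h1 := dd_le g U (h g List.mem_cons_self)
    have h2 := ih fun y hy => h y (List.mem_cons_of_mem _ hy)
    rw [FF_cons, List.length_cons]
    push_cast
    linarith

omit [FiniteDimensional K V] in
/-- a function which is bounded below has a minimiser -/
private theorem exists_min (G : Submodule K V → ℤ) (b : ℤ) (hb : ∀ W, b ≤ G W) :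
    ∃ Z, ∀ W, G Z ≤ G W := by
  obtain ⟨m, ⟨Z, hZ⟩, hm⟩ := Int.exists_least_of_bdd (P := fun z => ∃ W, G W = z)
    ⟨b, by rintro z ⟨W, rfl⟩; exact hb W⟩ ⟨G ⊥, ⊥, rfl⟩
  exact ⟨Z, fun W => by rw [hZ]; exact hm _ ⟨W, rfl⟩⟩

/-- **NEAR MINIMISERS**. -/
theorem near {k : ℕ} (x : List (V ≃ₗ[K] V)) (U : Submodule K V) (hx : x ≠ [])
    (hU : FF x U U ≤ x.length * (2 * k)) :
    ∃ M Z Z' : Submodule K V, (∀ W, FF x U M ≤ FF x U W) ∧
      (∀ W, 2 * FF x U W < 2 * FF x U M + x.length → Z ≤ W ∧ W ≤ Z') ∧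
      finrank K U ≤ finrank K Z + 4 * k ∧ finrank K Z' ≤ finrank K U + 4 * k ∧
      ∃ g ∈ x, finrank K U ≤ finrank K (im g U ⊓ Z : Submodule K V) + 4 * k := by
  have hn : 0 < (x.length : ℤ) := by
    exact_mod_cast List.length_pos_iff.2 hx
  have h0 : ∀ W : Submodule K V, 0 ≤ FF x U W := by
    intro W
    obtain ⟨h1, h2⟩ := le_FF x U W
    nlinarith
  obtain ⟨M, hM⟩ := exists_min (fun W => FF x U W) 0 h0
  obtain ⟨Z, hZ⟩ := exists_min (fun W => 2 * FF x U W + x.length * finrank K W) 0 (by
    intro W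
    have h1 := h0 W
    have h2 : 0 ≤ (x.length : ℤ) * finrank K W := by positivity
    linarith)
  obtain ⟨Z', hZ'⟩ := exists_min (fun W => 2 * FF x U W - x.length * finrank K W)
    (-(x.length * finrank K V)) (by
    intro W
    have h1 := h0 W
    have h2 : (finrank K W : ℤ) ≤ finrank K V := by exact_mod_cast Submodule.finrank_le W
    nlinarith)
  have hZU : finrank K U ≤ finrank K Z + 4 * k := by
    have h1 := hZ U
    obtain ⟨h2, h3⟩ := le_FF x U Z
    by_contra hcon
    push Not at hcon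
    have h4 : (finrank K Z : ℤ) + 4 * k + 1 ≤ finrank K U := by exact_mod_cast hcon
    nlinarith
  refine ⟨M, Z, Z', hM, ?_, hZU, ?_, ?_⟩
  · intro W hW
    constructor
    · have h1 := FF_sub x U Z W
      have h2 := hZ (Z ⊓ W)
      have h3 := hM (Z ⊔ W)
      have h4 := si Z W
      have h5 : (finrank K W : ℤ) ≤ finrank K (Z ⊔ W : Submodule K V) := fm le_sup_right
      have h6 : (finrank K (Z ⊔ W : Submodule K V) : ℤ) ≤ finrank K W := by
        by_contra hcon
        push Not at hcon
        have h7 : (finrank K W : ℤ) + 1 ≤ finrank K (Z ⊔ W : Submodule K V) := hcon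
        nlinarith
      have h7 : W = Z ⊔ W := Submodule.eq_of_le_of_finrank_le le_sup_right (by exact_mod_cast h6)
      rw [h7]
      exact le_sup_left
    · have h1 := FF_sub x U Z' W
      have h2 := hZ' (Z' ⊔ W)
      have h3 := hM (Z' ⊓ W)
      have h4 := si Z' W
      have h6 : (finrank K W : ℤ) ≤ finrank K (Z' ⊓ W : Submodule K V) := by
        by_contra hcon
        push Not at hcon
        have h7 : (finrank K (Z' ⊓ W : Submodule K V) : ℤ) + 1 ≤ finrank K W := hcon
        nlinarith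
      have h7 : (Z' ⊓ W : Submodule K V) = W :=
        Submodule.eq_of_le_of_finrank_le inf_le_right (by exact_mod_cast h6)
      rw [← h7]
      exact inf_le_left
  · have h1 := hZ' U
    obtain ⟨h2, h3⟩ := le_FF x U Z'
    by_contra hcon
    push Not at hcon
    have h4 : (finrank K U : ℤ) + 4 * k + 1 ≤ finrank K Z' := by exact_mod_cast hcon
    nlinarith
  · by_contra hcon
    push Not at hcon
    have h1 := hZ U
    have h2 := le_FF' x U Z ((finrank K Z : ℤ) - finrank K U + 8 * k + 2) (by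
      intro g hg
      have h3 := si Z (im g U)
      rw [finrank_im] at h3
      have h4 : (finrank K (im g U ⊓ Z : Submodule K V) : ℤ) + 4 * k + 1 ≤ finrank K U := by
        exact_mod_cast hcon g hg
      rw [inf_comm] at h4
      unfold dd
      linarith)
    have h5 : (finrank K U : ℤ) ≤ finrank K Z + 4 * k := by exact_mod_cast hZU
    nlinarith

/-- **GROWTH**, abstract form.  `lev i C`: the block `C` has `i` handles; `L C`: the letters of `C`;
`Y C`: the letters which can be added. -/
theorem growth' (U : Submodule K V) (k : ℕ) {β : Type} (lev : ℕ → β → Prop)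
    (L Y : β → Set (V ≃ₗ[K] V)) (h0 : ∃ C, lev 0 C ∧ (1 : V ≃ₗ[K] V) ∈ L C)
    (hstep : ∀ i ≤ 8 * k, ∀ C, lev i C → ∀ y ∈ Y C, ∃ C', lev (i + 1) C' ∧ L C ⊆ L C' ∧
      ∀ x ∈ L C, y * x ∈ L C')
    (hk : ∀ i ≤ 8 * k + 1, ∀ C, lev i C → ∀ x ∈ L C,
      finrank K (U ⊔ im x U : Submodule K V) ≤ finrank K U + k) :
    ∃ i ≤ 8 * k, ∃ (C : β) (Z Z' : Submodule K V), lev i C ∧ (∀ y ∈ Y C, im y Z ≤ Z') ∧
      Z ≤ Z' ∧ finrank K U ≤ finrank K Z + 4 * k ∧ finrank K Z' ≤ finrank K U + 4 * k ∧
      ∃ g ∈ L C, finrank K U ≤ finrank K (im g U ⊓ Z : Submodule K V) + 4 * k := by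
  by_contra hcon
  push Not at hcon
  have key : ∀ i ≤ 8 * k + 1, ∃ (C : β) (x : List (V ≃ₗ[K] V)), lev i C ∧ x ≠ [] ∧
      (∀ g ∈ x, g ∈ L C) ∧ ∀ W, (x.length : ℤ) * i ≤ 4 * FF x U W := by
    intro i
    induction i with
    | zero =>
      intro _
      obtain ⟨C, hC, h1⟩ := h0
      refine ⟨C, [1], hC, by simp, by simpa using h1, ?_⟩
      intro W
      obtain ⟨h2, h3⟩ := le_FF [(1 : V ≃ₗ[K] V)] U W
      simp only [List.length_singleton] at h2 h3 ⊢
      push_cast at h2 h3 ⊢
      linarith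
    | succ i ih =>
      intro hi
      obtain ⟨C, x, hC, hx, hxL, hF⟩ := ih (by omega)
      have hxU : FF x U U ≤ x.length * (2 * k) :=
        FF_le x U fun g hg => hk i (by omega) C hC g (hxL g hg)
      obtain ⟨M, Z, Z', hM, hnear, hd1, hd2, g₀, hg₀, hg₀'⟩ := near x U hx hxU
      have hn : 0 < (x.length : ℤ) := by
        exact_mod_cast List.length_pos_iff.2 hx
      obtain ⟨hz1, hz2⟩ := hnear M (by linarith)
      have hex : ∃ y ∈ Y C, ¬ im y Z ≤ Z' := by
        by_contra hno
        push Not at hno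
        have h1 := hcon i (by omega) C Z Z' hC hno (hz1.trans hz2) hd1 hd2 g₀ (hxL g₀ hg₀)
        omega
      obtain ⟨y, hy, hyZ⟩ := hex
      obtain ⟨C', hC', hLL, hyL⟩ := hstep i (by omega) C hC y hy
      refine ⟨C', x ++ x.map (fun g => y * g), hC', by simp [hx], ?_, ?_⟩
      · intro g hg
        rcases List.mem_append.1 hg with hg | hg
        · exact hLL (hxL g hg)
        · obtain ⟨g', hg', rfl⟩ := List.mem_map.1 hg
          exact hyL g' (hxL g' hg')
      · intro W
        rw [FF_append, List.length_append, List.length_map]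
        have e1 : W = im y (im y⁻¹ W) := by
          rw [← im_mul, mul_inv_cancel, im_one]
        have e2 : FF (x.map fun g => y * g) U W = FF x U (im y⁻¹ W) := by
          conv_lhs => rw [e1]
          exact FF_mul x y U _
        rw [e2]
        have h1 := hM W
        have h2 := hM (im y⁻¹ W)
        have h3 : 2 * FF x U M + x.length ≤ 2 * FF x U W ∨
            2 * FF x U M + x.length ≤ 2 * FF x U (im y⁻¹ W) := by
          by_contra hno
          push Not at hno
          obtain ⟨-, h4⟩ := hnear W hno.1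
          obtain ⟨h5, -⟩ := hnear (im y⁻¹ W) hno.2
          apply hyZ
          refine (im_mono y h5).trans ?_
          rw [← e1]
          exact h4
        have h4 := hF M
        push_cast
        rcases h3 with h3 | h3 <;> nlinarith
  obtain ⟨C, x, hC, hx, hxL, hF⟩ := key (8 * k + 1) le_rfl
  have hxU : FF x U U ≤ x.length * (2 * k) :=
    FF_le x U fun g hg => hk (8 * k + 1) le_rfl C hC g (hxL g hg)
  have hn : 0 < (x.length : ℤ) := by
    exact_mod_cast List.length_pos_iff.2 hx
  have h1 := hF U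
  push_cast at h1
  nlinarith

/-- the same without the last conclusion -/
theorem growth (U : Submodule K V) (k : ℕ) {β : Type} (lev : ℕ → β → Prop)
    (L Y : β → Set (V ≃ₗ[K] V)) (h0 : ∃ C, lev 0 C ∧ (1 : V ≃ₗ[K] V) ∈ L C)
    (hstep : ∀ i ≤ 8 * k, ∀ C, lev i C → ∀ y ∈ Y C, ∃ C', lev (i + 1) C' ∧ L C ⊆ L C' ∧
      ∀ x ∈ L C, y * x ∈ L C')
    (hk : ∀ i ≤ 8 * k + 1, ∀ C, lev i C → ∀ x ∈ L C,
      finrank K (U ⊔ im x U : Submodule K V) ≤ finrank K U + k) :
    ∃ i ≤ 8 * k, ∃ (C : β) (Z Z' : Submodule K V), lev i C ∧ (∀ y ∈ Y C, im y Z ≤ Z') ∧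
      Z ≤ Z' ∧ finrank K U ≤ finrank K Z + 4 * k ∧ finrank K Z' ≤ finrank K U + 4 * k := by
  obtain ⟨i, hi, C, Z, Z', h1, h2, h3, h4, h5, -⟩ := growth' U k lev L Y h0 hstep hk
  exact ⟨i, hi, C, Z, Z', h1, h2, h3, h4, h5⟩

end sub

end Pool.Agent.NLG
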