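import Pool.Agent.NLG.Tw
import Pool.Agent.NLG.Sub
import Pool.Agent.NLG.Lin

/-!
# Growth in the linear range

Helper35, for MP_0707f5_ag (linear range).

Let `U = Sp N R w P` where the letters of `P` act transitively on the small modules, and `(X, B)` full.
If no spare handle enlarges `U` by more than `κ`, `8 κ < r`, then `dim (cyc R w ⊤) ≤ dim U + 4 κ`.
-/

set_option autoImplicit false

namespace Pool.Agent.NLG

open Module
open SpQ (Hd WStep WReach WExt Good bare bd cj1)
open LGP (cyc)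
open LGC (It hl GI Kl IReach cls St_All St_Gek St_Vek)

section
variable {K U Γ : Type} [Field K] [AddCommGroup U] [Module K U] [Group Γ] {k : ℕ}

/-- the automorphism of an element -/
def Rg {G : Type} [Group G] (R : G →* Module.End K U) (x : G) : U ≃ₗ[K] U :=
  LinearEquiv.ofLinearMap (R x) (R x⁻¹)
    (by
      rw [← Module.End.mul_eq_comp, ← map_mul, mul_inv_cancel, map_one]
      rfl)
    (by
      rw [← Module.End.mul_eq_comp, ← map_mul, inv_mul_cancel, map_one]
      rfl)

theorem Rg_apply {G : Type} [Group G] (R : G →* Module.End K U) (x : G) (u : U) :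
    Rg R x u = R x u := rfl

theorem Rg_mul {G : Type} [Group G] (R : G →* Module.End K U) (x y : G) :
    Rg R x * Rg R y = Rg R (x * y) := by
  ext u
  show R x (R y u) = R (x * y) u
  rw [map_mul]
  rfl

theorem mem_im {g : U ≃ₗ[K] U} {W : Submodule K U} {u : U} : u ∈ im g W ↔ ∃ s ∈ W, g s = u := by
  unfold im
  rw [Submodule.mem_map]
  rfl

/-- stable subspaces -/
def Stb {G : Type} [Group G] (R : G →* Module.End K U) (S : Submodule K U) : Prop :=
  ∀ x : G, ∀ s ∈ S, R x s ∈ S

variable [FiniteDimensional K U]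

theorem Stb.cyc {G : Type} [Group G] (R : G →* Module.End K U) (z : U) :
    Stb R (LGP.cyc R z ⊤) := fun x s hs =>
  LGP.le_stb_cyc (R := R) (w := z) (⊤ : Subgroup G) (Subgroup.mem_top x) s hs

theorem cyc_le_stb {G : Type} [Group G] {R : G →* Module.End K U} {z : U} {S : Submodule K U}
    (hS : Stb R S) (hz : z ∈ S) : LGP.cyc R z ⊤ ≤ S :=
  LGP.cyc_le hz fun x _ => hS x

/-- a stable subspace which does not contain `w` meets `Sp N R w P` in a subspace of codimension at
least `r` -/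
theorem drop {N : Subgroup Γ} {R : N →* Module.End K U} {r : ℕ}
    (hcompl : ∀ S, Stb R S → ∃ T, Stb R T ∧ S ⊓ T = ⊥ ∧ S ⊔ T = ⊤)
    (hdim : ∀ S, Stb R S → S ≠ ⊥ → ∃ T, Stb R T ∧ T ≤ S ∧ finrank K T = r ∧ T ≠ ⊥)
    (w : U) (P : List (Hd Γ k))
    (htr : ∀ z, finrank K (cyc R z ⊤) ≤ r → cyc R z ⊤ ≤ Sp N R z P)
    {M : Submodule K U} (hM : Stb R M) (hw : w ∉ M) :
    finrank K (Sp N R w P ⊓ M : Submodule K U) + r ≤ finrank K (Sp N R w P) := by
  obtain ⟨M', ⟨hM', hMM', hwM'⟩, hmax⟩ := (wellFounded_gt (α := Submodule K U)).has_min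
    {M' | Stb R M' ∧ M ≤ M' ∧ w ∉ M'} ⟨M, hM, le_rfl, hw⟩
  obtain ⟨T, hT, hi, hs⟩ := hcompl M' hM'
  have hwt : w ∈ M' ⊔ T := by
    rw [hs]
    exact Submodule.mem_top
  obtain ⟨n, hn, t, ht, rfl⟩ := Submodule.mem_sup.1 hwt
  have ht0 : t ≠ 0 := by
    rintro rfl
    rw [add_zero] at hwM'
    exact hwM' hn
  have hcT : cyc R t ⊤ ≤ T := cyc_le_stb hT ht
  have hcb : cyc R t ⊤ ≠ ⊥ := by
    intro h
    have h1 := LGP.self_mem_cyc R t (⊤ : Subgroup N)
    rw [h, Submodule.mem_bot] at h1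
    exact ht0 h1
  obtain ⟨S, hS, hSc, hSr, hSb⟩ := hdim _ (Stb.cyc R t) hcb
  have hst : Stb R (M' ⊔ S) := by
    intro x s hs
    obtain ⟨a, ha, b, hb, rfl⟩ := Submodule.mem_sup.1 hs
    rw [map_add]
    exact Submodule.add_mem_sup (hM' x a ha) (hS x b hb)
  have hST : S ≤ T := hSc.trans hcT
  have hiS : M' ⊓ S = ⊥ := by
    rw [eq_bot_iff, ← hi]
    exact inf_le_inf le_rfl hST
  have hw2 : n + t ∈ M' ⊔ S := by
    by_contra hcon
    refine hmax (M' ⊔ S) ⟨hst, hMM'.trans le_sup_left, hcon⟩ ?_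
    refine lt_of_le_of_ne le_sup_left ?_
    intro h
    have h1 : S ≤ M' := by
      rw [h]
      exact le_sup_right
    rw [inf_eq_right.2 h1] at hiS
    exact hSb hiS
  have htS : t ∈ S := by
    obtain ⟨a, ha, b, hb, hab⟩ := Submodule.mem_sup.1 hw2
    have h1 : t - b = a - n := by
      have h2 : a + b = n + t := hab
      have h3 : t - b = (n + t) - n - b := by abel
      rw [h3, ← h2]
      abel
    have h2 : t - b ∈ M' ⊓ T := by
      refine Submodule.mem_inf.2 ⟨?_, T.sub_mem ht (hST hb)⟩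
      rw [h1]
      exact M'.sub_mem ha hn
    rw [hi, Submodule.mem_bot, sub_eq_zero] at h2
    rw [h2]
    exact hb
  have hcS : cyc R t ⊤ ≤ S := cyc_le_stb hS htS
  have h1 := htr t (by
    rw [← hSr]
    exact Submodule.finrank_mono hcS)
  have h2 : Sp N R t P ≤ Sp N R (n + t) P ⊔ M' := by
    have e : t = (n + t) - n := by abel
    refine Sp_le ?_ ?_
    · rw [e]
      exact Submodule.sub_mem _ (Submodule.mem_sup_left (by
        rw [← e]
        exact Sp_self (n + t) P)) (Submodule.mem_sup_right hn)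
    · intro x hx
      have e2 : R x t = R x (n + t) - R x n := by
        rw [map_add]
        abel
      rw [e2]
      exact Submodule.sub_mem _ (Submodule.mem_sup_left (mem_Sp hx))
        (Submodule.mem_sup_right (hM' x n hn))
  have h3 : M' ⊔ S ≤ Sp N R (n + t) P ⊔ M' :=
    sup_le le_sup_right ((hSc.trans h1).trans h2)
  have h4 := Submodule.finrank_mono h3
  have h5 := Submodule.finrank_sup_add_finrank_inf_eq M' S
  have h6 := Submodule.finrank_sup_add_finrank_inf_eq (Sp N R (n + t) P) M'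
  have h7 : finrank K (Sp N R (n + t) P ⊓ M : Submodule K U) ≤
      finrank K (Sp N R (n + t) P ⊓ M' : Submodule K U) :=
    Submodule.finrank_mono (inf_le_inf le_rfl hMM')
  rw [hiS, finrank_bot] at h5
  omega

/-- **GRO**. -/
theorem gro (hA : St_All) (hG : St_Gek) {N : Subgroup Γ} [N.Normal] {R : N →* Module.End K U}
    {m₀ r κ : ℕ} (hE : Ess k N R m₀)
    (hcompl : ∀ S, Stb R S → ∃ T, Stb R T ∧ S ⊓ T = ⊥ ∧ S ⊔ T = ⊤)
    (hdim : ∀ S, Stb R S → S ≠ ⊥ → ∃ T, Stb R T ∧ T ≤ S ∧ finrank K T = r ∧ T ≠ ⊥)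
    (w : U) (P : List (Hd Γ k))
    (htr : ∀ z, finrank K (cyc R z ⊤) ≤ r → cyc R z ⊤ ≤ Sp N R z P)
    (X : List (It Γ k)) (B : List (Hd Γ k)) (hB : ∀ h ∈ B, Kl N h) (hf : Full N R X B)
    (hκ : 8 * κ < r) (hlen : m₀ + 2 * r + 1 + 8 * κ ≤ B.length)
    (hgr : ∀ (X' : List (It Γ k)) (B' : List (Hd Γ k)) (p : Hd Γ k),
      IReach (X ++ hl B) (X' ++ hl (B' ++ [p])) → (∀ h ∈ B' ++ [p], Kl N h) →
      B'.length + 1 = B.length → Full N R X' B' →
      finrank K (Sp N R w ([p] ++ P)) ≤ finrank K (Sp N R w P) + κ) :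
    finrank K (cyc R w ⊤) ≤ finrank K (Sp N R w P) + 4 * κ := by
  have hWone : im (1 : U ≃ₗ[K] U) (Sp N R w P) = Sp N R w P := im_one _
  obtain ⟨i, hi, C, Z, Z', ⟨hr, hk, hl1, hl2, hf'⟩, hYZ, hZZ', hd1, hd2, g, hg, hd3⟩ :=
    growth' (Sp N R w P) κ
    (β := List (It Γ k) × List (Hd Γ k) × List (Hd Γ k))
    (fun i C => IReach (X ++ hl B) (C.1 ++ hl (C.2.1 ++ C.2.2)) ∧ (∀ h ∈ C.2.1 ++ C.2.2, Kl N h) ∧
      C.2.2.length = i ∧ C.2.1.length + i = B.length ∧ Full N R C.1 C.2.1)
    (fun C => {g | g = 1 ∨ ∃ x : N, (x : Γ) ∈ SpQ.fc C.2.2 (-1) ∧ g = Rg R x})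
    (fun C => {g | ∃ y ∈ Ys N R C.1 C.2.1, g = Rg R y})
    ⟨(X, B, []), ⟨by simpa using IReach.refl _, by simpa using hB, rfl, by simp, hf⟩,
      Or.inl rfl⟩
    (by
      rintro i hi ⟨X', B', C⟩ ⟨hr, hk, hl1, hl2, hf'⟩ _ ⟨y, ⟨X'', B'', p, h1, h2, h3, h4, h5⟩, rfl⟩
      dsimp only at hr hk hl1 hl2 hf' h1 h3
      have hkC : ∀ h ∈ C, Kl N h := fun h hh => hk h (List.mem_append_right _ hh)
      refine ⟨(X'', B'', [p] ++ C), ⟨?_, ?_, ?_, ?_, h4⟩, ?_, ?_⟩
      · dsimp only
        refine hr.trans ?_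
        have h6 := h1.right (hl C)
        rw [app_ctx, app_ctx, List.append_assoc] at h6
        exact h6
      · intro h hh
        dsimp only at hh
        rw [← List.append_assoc] at hh
        rcases List.mem_append.1 hh with hh | hh
        · exact h2 h hh
        · exact hkC h hh
      · simp only [List.length_append, List.length_singleton]
        omega
      · dsimp only
        omega
      · rintro g (rfl | ⟨x, hx, rfl⟩)
        · exact Or.inl rfl
        · exact Or.inr ⟨x, SpQ.fc_mono (WExt.drop_left [p] C) _ hx, rfl⟩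
      · rintro g (rfl | ⟨x, hx, rfl⟩)
        · exact Or.inr ⟨y, SpQ.fc_mono (WExt.drop_right [p] C) _ h5, mul_one _⟩
        · refine Or.inr ⟨y * x, ?_, Rg_mul R y x⟩
          have h6 := SpQ.fc_mul h5 hx
          have e : (-1 : ZMod k) + -1 + 1 = -1 := by ring
          rw [e] at h6
          exact h6)
    (by
      rintro i hi ⟨X', B', C⟩ ⟨hr, hk, hl1, hl2, hf'⟩ g hg
      dsimp only at hr hk hl1 hl2 hf'
      rcases hg with rfl | ⟨x, hx, rfl⟩
      · rw [im_one, sup_idem]
        omega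
      · dsimp only at hx
        obtain ⟨y, o, junk, hj⟩ := hx
        have hkC : ∀ h ∈ C, Kl N h := fun h hh => hk h (List.mem_append_right _ hh)
        have hkB' : ∀ h ∈ B', Kl N h := fun h hh => hk h (List.mem_append_left _ hh)
        have hkj : ∀ h ∈ junk ++ [((((x : Γ), y), ((-1 : ZMod k), o)) : Hd Γ k)], Kl N h := by
          rw [LGC.Kl_list, hj.E_eq, ← LGC.Kl_list]
          exact hkC
        have h1 := hgr X' (B' ++ junk) (((x : Γ), y), ((-1 : ZMod k), o)) (by
          refine hr.trans ?_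
          have h2 := (IReach.of_wreach hj).left (X' ++ hl B')
          rw [app_ctx, app_ctx, ← List.append_assoc B' junk] at h2
          exact h2) (by
          intro h hh
          rw [List.append_assoc] at hh
          rcases List.mem_append.1 hh with hh | hh
          · exact hkB' h hh
          · exact hkj h hh) (by
          have h3 := hj.length_eq
          simp only [List.length_append, List.length_singleton] at h3 ⊢
          omega) (hf'.mono (LGC.GI_mono (by
            intro i hi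
            rw [LGC.hl_append, ← List.append_assoc]
            exact List.mem_append_left _ hi)))
        refine le_trans (Submodule.finrank_mono ?_) h1
        refine sup_le (Sp_mono (WExt.drop_left _ P)) ?_
        intro u hu
        obtain ⟨s, hs, rfl⟩ := mem_im.1 hu
        exact Sp_mul (x := x) ⟨y, o, WExt.refl _⟩ hs)
  obtain ⟨X', B', C⟩ := C
  dsimp only at hr hk hl1 hl2 hf' hYZ hg
  have hkB' : ∀ h ∈ B', Kl N h := fun h hh => hk h (List.mem_append_left _ hh)
  -- a stable subspace between `Z` and `Z'`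
  obtain ⟨M, hM, hZM, hMZ'⟩ := lin (Stb R) r
    (by
      intro x s hs
      rw [Submodule.mem_bot] at hs ⊢
      rw [hs, map_zero])
    (by
      intro S T hS hT x s hs
      obtain ⟨a, ha, b, hb, rfl⟩ := Submodule.mem_sup.1 hs
      rw [map_add]
      exact Submodule.add_mem_sup (hS x a ha) (hT x b hb))
    (by
      intro S T hS hT x s hs
      obtain ⟨h1, h2⟩ := Submodule.mem_inf.1 hs
      exact Submodule.mem_inf.2 ⟨hS x s h1, hT x s h2⟩)
    hcompl hdim {f | ∃ y ∈ Ys N R X' B', f = R y}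
    (by
      rintro S hS _ ⟨y, -, rfl⟩ s hs
      exact hS y s hs)
    (by
      intro z Q hQ hz hd W hW
      refine ⟨cyc R z ⊤, Stb.cyc R z, LGP.self_mem_cyc _ _ _, ?_⟩
      have h1 : finrank K (cyc R z ⊤) ≤ 2 * r :=
        (Submodule.finrank_mono (cyc_le_stb hQ hz)).trans hd
      exact tw hA hG hE X' B' hkB' hf' z (by omega) W fun y hy => hW _ ⟨y, hy, rfl⟩)
    (finrank K U) ⊤ Z Z' (Submodule.finrank_le _) (fun _ _ _ => Submodule.mem_top) hZZ' le_top
    (by
      rintro _ ⟨y, hy, rfl⟩ z hz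
      exact hYZ _ ⟨y, hy, rfl⟩ (mem_im.2 ⟨z, hz, rfl⟩))
    (by omega)
  have hwM : w ∈ M := by
    by_contra hcon
    have h1 := drop hcompl hdim w P htr hM hcon
    have h2 : im g M = M := by
      rcases hg with rfl | ⟨x, -, rfl⟩
      · exact im_one M
      · refine Submodule.eq_of_le_of_finrank_le ?_ (by rw [finrank_im])
        intro u hu
        obtain ⟨s, hs, rfl⟩ := mem_im.1 hu
        exact hM x s hs
    have h3 : finrank K (im g (Sp N R w P) ⊓ Z : Submodule K U) ≤
        finrank K (im g (Sp N R w P) ⊓ M : Submodule K U) :=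
      Submodule.finrank_mono (inf_le_inf le_rfl hZM)
    have h4 : finrank K (im g (Sp N R w P) ⊓ M : Submodule K U) =
        finrank K (Sp N R w P ⊓ M : Submodule K U) := by
      conv_lhs => rw [← h2]
      rw [← im_inf, finrank_im]
    omega
  have h1 := Submodule.finrank_mono ((cyc_le_stb hM hwM).trans hMZ')
  omega

end

end Pool.Agent.NLG
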