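import Pool.Agent.NLG.Hgr
import Pool.Agent.EKL.Ssi
import Pool.Agent.EKL.Ful

/-!
# Arbitrary subgroups: the iteration

Helper35, for MP_0707f5_ag (arbitrary subgroups `H` of finite index); the iteration is that of
helper33 (EKL/Vkk.lean).

`hdet`: two irreducible representations of rank `r` of a subgroup `H` with the same traces on the
letters (in `H`, of weight zero) of a list `B ++ P` of handles have the same character, if `B` and `P`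
are full, `B` has at least `m₀ + 19 r` handles and `P` at least `m₀ + r`.
-/

set_option autoImplicit false

namespace Pool.Agent.NLG

open Module
open SpQ (Hd WStep WReach WExt)
open LGP (cyc prR)
open EKL (Stp)

section
variable {K U Γ : Type} [Field K] [AddCommGroup U] [Module K U] [Group Γ] {k : ℕ}
  [FiniteDimensional K U]

/-- the states: `B ++ (Q ++ P₁)` -/
def HSt {H : Subgroup Γ} (R : H →* Module.End K U) (P₁ Y B Q : List (Hd Γ k)) (c : ℕ) : Prop :=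
  WReach Y (B ++ (Q ++ P₁)) ∧ Fu R (SpQ.E B) ∧ B.length + Q.length = c

/-- one step -/
theorem hstep {H : Subgroup Γ} {R : H →* Module.End K U} {A : List (Hd Γ k) → Prop} (hA : Her A)
    {m₀ r : ℕ} (hG : Gen R A m₀)
    (hcompl : ∀ S, Stb R S → ∃ T, Stb R T ∧ S ⊓ T = ⊥ ∧ S ⊔ T = ⊤)
    (hdim : ∀ S, Stb R S → S ≠ ⊥ → ∃ T, Stb R T ∧ T ≤ S ∧ finrank K T = r ∧ T ≠ ⊥)
    (P₁ Y : List (Hd Γ k)) (hP₁ : Fu R (SpQ.E P₁)) (hAP : A P₁) (hAY : A Y)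
    (hP₁l : m₀ + r ≤ P₁.length) (c : ℕ) (w : U) (B Q : List (Hd Γ k)) (hs : HSt R P₁ Y B Q c)
    (t : ℕ) (ht : 8 * t < r) (hlB : m₀ + 2 * r + 8 * t ≤ B.length)
    (hd : finrank K (Sp H R w (Q ++ P₁)) + 4 * t < finrank K (cyc R w ⊤)) :
    ∃ (B' Q' : List (Hd Γ k)), HSt R P₁ Y B' Q' c ∧ Q'.length = Q.length + 1 ∧
      finrank K (Sp H R w (Q ++ P₁)) + t + 1 ≤ finrank K (Sp H R w (Q' ++ P₁)) := by
  obtain ⟨s1, s4, s5⟩ := hs
  obtain ⟨B', p, e1, e4, hgr⟩ : ∃ (B' : List (Hd Γ k)) (p : Hd Γ k), WReach B (B' ++ [p]) ∧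
      Fu R (SpQ.E B') ∧
      finrank K (Sp H R w (Q ++ P₁)) + t < finrank K (Sp H R w ([p] ++ (Q ++ P₁))) := by
    by_contra hcon
    push Not at hcon
    have h3 := hgro hA hG hcompl hdim w (Q ++ P₁)
      (fun z hz => (hblo hA hG P₁ hAP hP₁ z (by omega)).trans
        (Sp_mono (WExt.drop_left Q P₁))) B (hA Y B _ hAY s1).1 s4 ht hlB hcon
    omega
  have hl := e1.length_eq
  rw [List.length_append, List.length_singleton] at hl
  refine ⟨B', [p] ++ Q, ⟨?_, e4, ?_⟩, ?_, ?_⟩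
  · refine s1.trans ?_
    have h6 := e1.right (Q ++ P₁)
    rw [List.append_assoc] at h6
    rw [List.append_assoc]
    exact h6
  · simp only [List.length_append, List.length_singleton]
    omega
  · simp only [List.length_append, List.length_singleton]
    omega
  · rw [List.append_assoc]
    omega

/-- the iteration -/
theorem hiter {H : Subgroup Γ} {R : H →* Module.End K U} {A : List (Hd Γ k) → Prop} (hA : Her A)
    {m₀ r : ℕ} (hG : Gen R A m₀)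
    (hcompl : ∀ S, Stb R S → ∃ T, Stb R T ∧ S ⊓ T = ⊥ ∧ S ⊔ T = ⊤)
    (hdim : ∀ S, Stb R S → S ≠ ⊥ → ∃ T, Stb R T ∧ T ≤ S ∧ finrank K T = r ∧ T ≠ ⊥)
    (P₁ Y : List (Hd Γ k)) (hP₁ : Fu R (SpQ.E P₁)) (hAP : A P₁) (hAY : A Y)
    (hP₁l : m₀ + r ≤ P₁.length) (c : ℕ) (w : U) (B Q : List (Hd Γ k)) (hs : HSt R P₁ Y B Q c)
    (t : ℕ) (ht : 8 * t < r) :
    ∀ n : ℕ, Q.length + n + (m₀ + 2 * r + 8 * t) ≤ c →
    ∃ (B' Q' : List (Hd Γ k)), HSt R P₁ Y B' Q' c ∧ Q'.length ≤ Q.length + n ∧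
      (finrank K (cyc R w ⊤) ≤ finrank K (Sp H R w (Q' ++ P₁)) + 4 * t ∨
        finrank K (Sp H R w (Q ++ P₁)) + n * (t + 1) ≤ finrank K (Sp H R w (Q' ++ P₁))) := by
  intro n
  induction n with
  | zero =>
    intro _
    exact ⟨B, Q, hs, by omega, Or.inr (by omega)⟩
  | succ n ih =>
    intro hn
    obtain ⟨B', Q', s1, s2, s3⟩ := ih (by omega)
    by_cases hdone : finrank K (cyc R w ⊤) ≤ finrank K (Sp H R w (Q' ++ P₁)) + 4 * t
    · exact ⟨B', Q', s1, by omega, Or.inl hdone⟩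
    · have s3' := s3.resolve_left hdone
      have hlen := s1.2.2
      obtain ⟨B'', Q'', u1, u2, u3⟩ := hstep hA hG hcompl hdim P₁ Y hP₁ hAP hAY hP₁l c w B' Q' s1
        t ht (by omega) (by omega)
      refine ⟨B'', Q'', u1, by omega, Or.inr ?_⟩
      have e : (n + 1) * (t + 1) = n * (t + 1) + (t + 1) := by ring
      omega

end

section
variable {Γ : Type} [Group Γ] {k r : ℕ}

/-- **DET**, for an arbitrary subgroup -/
theorem hdet (H : Subgroup Γ) (ρ₁ ρ₂ : H →* GL (Fin r) ℂ)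
    (h1 : Pool.Agent.HZ.Irr ρ₁.range) (h2 : Pool.Agent.HZ.Irr ρ₂.range)
    (A : List (Hd Γ k) → Prop) (hA : Her A) (m₀ : ℕ) (hG : Gen (prR ρ₁ ρ₂) A m₀)
    (B P : List (Hd Γ k)) (hABP : A (B ++ P)) (hB : Fu (prR ρ₁ ρ₂) (SpQ.E B))
    (hP : Fu (prR ρ₁ ρ₂) (SpQ.E P)) (hlB : m₀ + 19 * r ≤ B.length) (hlP : m₀ + r ≤ P.length)
    (hT : ∀ y : H, (y : Γ) ∈ SpQ.fc (B ++ P) 0 →
      (ρ₁ y : Matrix (Fin r) (Fin r) ℂ).trace = (ρ₂ y : Matrix (Fin r) (Fin r) ℂ).trace)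
    (x : H) :
    (ρ₁ x : Matrix (Fin r) (Fin r) ℂ).trace = (ρ₂ x : Matrix (Fin r) (Fin r) ℂ).trace := by
  rcases Nat.eq_zero_or_pos r with hr | hr
  · subst hr
    rw [Matrix.trace, Matrix.trace, Finset.univ_eq_empty, Finset.sum_empty, Finset.sum_empty]
  obtain ⟨w, hw⟩ : ∃ w : Matrix (Fin r) (Fin r) ℂ × Matrix (Fin r) (Fin r) ℂ, w = (1, 1) := ⟨_, rfl⟩
  have hcompl : ∀ S, Stb (prR ρ₁ ρ₂) S →
      ∃ T, Stb (prR ρ₁ ρ₂) T ∧ S ⊓ T = ⊥ ∧ S ⊔ T = ⊤ := fun S hS => Stp.compl h1 h2 S hS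
  have hdim : ∀ S, Stb (prR ρ₁ ρ₂) S → S ≠ ⊥ →
      ∃ T, Stb (prR ρ₁ ρ₂) T ∧ T ≤ S ∧ finrank ℂ T = r ∧ T ≠ ⊥ :=
    fun S hS h0 => Stp.dim h1 h2 S hS h0
  obtain ⟨hAB, hAP⟩ := hA (B ++ P) B P hABP (WReach.refl _)
  have hs₁ : HSt (prR ρ₁ ρ₂) P (B ++ P) B [] B.length :=
    ⟨by simpa using WReach.refl _, hB, by simp⟩
  have hcd : finrank ℂ (cyc (prR ρ₁ ρ₂) w ⊤) ≤ 2 * (r * r) := by
    rw [hw]
    have h3 := LGP.finrank_cyc_le ρ₁ ρ₂ 1 ⊤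
    rwa [Matrix.rank_one, Fintype.card_fin] at h3
  -- large growth
  obtain ⟨t, ht⟩ : ∃ t, t = (r - 1) / 8 := ⟨_, rfl⟩
  have ht1 : 8 * t < r := by omega
  have ht2 : r ≤ 8 * (t + 1) := by omega
  obtain ⟨B₂, Q₂, b1, b2, b3⟩ := hiter hA hG hcompl hdim P (B ++ P) hP hAP hABP hlP B.length w B []
    hs₁ t ht1 (16 * r) (by
      rw [List.length_nil]
      omega)
  have b4 : finrank ℂ (cyc (prR ρ₁ ρ₂) w ⊤) ≤
      finrank ℂ (Sp H (prR ρ₁ ρ₂) w (Q₂ ++ P)) + 4 * t := by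
    rcases b3 with h | h
    · exact h
    · have h3 : 2 * (r * r) ≤ 16 * r * (t + 1) := by
        have h4 : r * r ≤ r * (8 * (t + 1)) := Nat.mul_le_mul_left r ht2
        have h5 : 16 * r * (t + 1) = 2 * (r * (8 * (t + 1))) := by ring
        omega
      omega
  -- small growth
  rw [List.length_nil] at b2
  obtain ⟨B₃, Q₃, c1, c2, c3⟩ := hiter hA hG hcompl hdim P (B ++ P) hP hAP hABP hlP B.length w B₂ Q₂
    b1 0 (by omega) (4 * t) (by omega)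
  have c4 : finrank ℂ (cyc (prR ρ₁ ρ₂) w ⊤) ≤
      finrank ℂ (Sp H (prR ρ₁ ρ₂) w (Q₃ ++ P)) := by
    rcases c3 with h | h
    · omega
    · omega
  have c5 : Sp H (prR ρ₁ ρ₂) w (Q₃ ++ P) = cyc (prR ρ₁ ρ₂) w ⊤ :=
    Submodule.eq_of_le_of_finrank_le (Sp_le_cyc w (Q₃ ++ P)) c4
  obtain ⟨d1, d2, d5⟩ := c1
  obtain ⟨-, ⟨γ, hγ⟩, -⟩ := hG B₃ (hA _ _ _ hABP d1).1 d2 (by omega)
  have htr : ∀ y : H, (y : Γ) ∈ SpQ.fc (B₃ ++ (Q₃ ++ P)) 0 →
      LGP.dtr r (prR ρ₁ ρ₂ y w) = 0 := by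
    intro y hyf
    rw [hw, LGP.prR_apply, LGP.dtr_apply, mul_one, mul_one,
      hT y (SpQ.fc_mono (WExt.of_reach d1) _ hyf), sub_self]
  have hall : ∀ u ∈ Sp H (prR ρ₁ ρ₂) w (Q₃ ++ P),
      LGP.dtr r (prR ρ₁ ρ₂ γ u) = 0 := by
    intro u hu
    unfold Sp at hu
    refine Submodule.span_induction
      (p := fun u _ => LGP.dtr r (prR ρ₁ ρ₂ γ u) = 0) ?_ ?_ ?_ ?_ hu
    · rintro u (rfl | ⟨y, hy, rfl⟩)
      · exact htr γ (SpQ.fc_mono (WExt.drop_right B₃ _) _ hγ)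
      · rw [← Module.End.mul_apply, ← map_mul]
        have h3 := SpQ.fc_mul hγ hy
        have e5 : (0 : ZMod k) + -1 + 1 = 0 := by ring
        rw [e5] at h3
        exact htr (γ * y) h3
    · rw [map_zero, map_zero]
    · intro a b _ _ ha hb
      rw [map_add, map_add, ha, hb, add_zero]
    · intro c a _ ha
      rw [map_smul, map_smul, ha, smul_zero]
  have h3 := hall (prR ρ₁ ρ₂ (γ⁻¹ * x) w) (by
    rw [c5]
    exact Submodule.subset_span ⟨_, Subgroup.mem_top _, rfl⟩)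
  rw [← Module.End.mul_apply, ← map_mul, mul_inv_cancel_left, hw, LGP.prR_apply, LGP.dtr_apply,
    mul_one, mul_one] at h3
  exact sub_eq_zero.1 h3

/-- fullness in terms of the algebra of the pair -/
theorem fu_iff (H : Subgroup Γ) (ρ₁ ρ₂ : H →* GL (Fin r) ℂ) (G : Subgroup Γ) :
    Fu (prR ρ₁ ρ₂) G ↔
      EKL.alg ℂ (EKL.prE ρ₁ ρ₂) (G.subgroupOf H) = EKL.alg ℂ (EKL.prE ρ₁ ρ₂) ⊤ :=
  EKL.full_iff ρ₁ ρ₂ (G.subgroupOf H)

end

end Pool.Agent.NLG
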