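import Pool.Agent.LGC.Vek

/-!
# Full systems of killed handles: the step

Helper35, for MP_0707f5_ag (linear range).

`Full N R X B`: the part of `N` in the group of `X ++ hl B` generates the same modules as `N`.  If `B` is
long enough, and a subgroup contains the groups of all spare handles (in all reachable systems) then it
contains this part of `N`.
-/

set_option autoImplicit false

namespace Pool.Agent.NLG

open Module
open SpQ (Hd WStep WReach WExt Good bare bd cj1)
open LGP (cyc)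
open LGC (It hl GI Kl IReach cls St_All St_Gek St_Vek)

section
variable {K U Γ : Type} [Field K] [AddCommGroup U] [Module K U] [Group Γ] {k : ℕ}

/-- the part of `N` in the group of `X ++ hl B` generates the same modules as `N` -/
def Full (N : Subgroup Γ) (R : N →* Module.End K U) (X : List (It Γ k)) (B : List (Hd Γ k)) :
    Prop :=
  ∀ w, cyc R w ((GI (X ++ hl B)).subgroupOf N) = cyc R w ⊤

variable {N : Subgroup Γ} {R : N →* Module.End K U}

theorem Full.mono {X X' : List (It Γ k)} {B B' : List (Hd Γ k)} (hf : Full N R X B)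
    (h : GI (X ++ hl B) ≤ GI (X' ++ hl B')) : Full N R X' B' := by
  intro w
  refine le_antisymm (LGP.cyc_mono R w le_top) ?_
  rw [← hf w]
  exact LGP.cyc_mono R w (Subgroup.comap_mono h)

theorem Full.reach {X X' : List (It Γ k)} {B B' : List (Hd Γ k)} (hf : Full N R X B)
    (h : IReach (X ++ hl B) (X' ++ hl B')) : Full N R X' B' :=
  hf.mono h.GI_eq.ge

/-- long lists of killed handles contain a handle which is not essential -/
def Ess (k : ℕ) (N : Subgroup Γ) (R : N →* Module.End K U) (m₀ : ℕ) : Prop :=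
  ∀ (X : List (It Γ k)) (B : List (Hd Γ k)), (∀ h ∈ B, Kl N h) → Full N R X B → m₀ < B.length →
    ∃ (s : List (Hd Γ k)) (p : Hd Γ k) (t : List (Hd Γ k)), B = s ++ p :: t ∧
      Full N R X (s ++ t)

/-- a killed handle of the context -/
theorem last_killed {X₀ X' : List (It Γ k)} {h₁ : Hd Γ k} (hh : Kl N h₁)
    (hcl : X'.map (cls N) = (X₀ ++ [Sum.inl h₁]).map (cls N)) :
    ∃ (X₁ : List (It Γ k)) (h' : Hd Γ k), X' = X₁ ++ [Sum.inl h'] ∧ Kl N h' := by
  rw [List.map_append] at hcl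
  obtain ⟨X₁, s, rfl, -, hs⟩ := List.map_eq_append_iff.1 hcl
  obtain ⟨i, s', rfl, hi, hs'⟩ := List.map_eq_cons_iff.1 hs
  obtain rfl : s' = [] := List.map_eq_nil_iff.1 hs'
  obtain ⟨h', rfl, hk'⟩ := LGC.cls_killed hh hi
  exact ⟨X₁, h', rfl, hk'⟩

theorem ctx (X : List (It Γ k)) (h : Hd Γ k) (B : List (Hd Γ k)) :
    (X ++ [Sum.inl h]) ++ hl B = X ++ hl (h :: B) := by
  rw [LGC.hl_cons, List.append_assoc]
  rfl

/-- normalisation: all handles but the first one are good -/
theorem normal {X : List (It Γ k)} {B : List (Hd Γ k)} (hB : ∀ h ∈ B, Kl N h) (hne : B ≠ []) :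
    ∃ (h₁ : Hd Γ k) (B₁ : List (Hd Γ k)), IReach (X ++ hl B) ((X ++ [Sum.inl h₁]) ++ hl B₁) ∧
      (∀ h ∈ B₁, Good h) ∧ Kl N h₁ ∧ (∀ h ∈ B₁, Kl N h) ∧ B₁.length + 1 = B.length := by
  obtain ⟨h₀, G₀, rfl⟩ : ∃ h₀ G₀, B = h₀ :: G₀ := by
    cases B with
    | nil => exact absurd rfl hne
    | cons a b => exact ⟨a, b, rfl⟩
  obtain ⟨h₁, B₁, hr, hg⟩ := SpQ.exists_good h₀ G₀
  have hE : SpQ.E (h₁ :: B₁) = SpQ.E (h₀ :: G₀) := hr.E_eq
  have hkB : ∀ h ∈ h₁ :: B₁, Kl N h := by
    rw [LGC.Kl_list, hE, ← LGC.Kl_list]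
    exact hB
  refine ⟨h₁, B₁, ?_, hg, hkB h₁ List.mem_cons_self,
    fun h hh => hkB h (List.mem_cons_of_mem _ hh), ?_⟩
  · rw [ctx]
    exact (IReach.of_wreach hr).left X
  · have h1 := hr.length_eq
    rw [List.length_cons, List.length_cons] at h1
    rw [List.length_cons]
    omega

/-- **STP**.  A subgroup which contains all spare handles contains the part of `N` in the group of the
list. -/
theorem stp (hA : St_All) (hG : St_Gek) [N.Normal] {m₀ : ℕ} (hE : Ess k N R m₀)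
    (X : List (It Γ k)) (B : List (Hd Γ k)) (hB : ∀ h ∈ B, Kl N h) (hf : Full N R X B)
    (hlen : m₀ + 2 ≤ B.length) (H : Subgroup Γ)
    (hH : ∀ (X' : List (It Γ k)) (B' : List (Hd Γ k)) (p : Hd Γ k),
      IReach (X ++ hl B) (X' ++ hl (B' ++ [p])) → (∀ h ∈ B' ++ [p], Kl N h) →
      B'.length + 1 = B.length → Good p → Full N R X' B' → SpQ.E [p] ≤ H) :
    N ⊓ GI (X ++ hl B) ≤ H := by
  obtain ⟨h₁, B₁, hr, hg, hk1, hkB, hl1⟩ := normal (X := X) hB (by
    rintro rfl
    rw [List.length_nil] at hlen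
    omega)
  have hGI := hr.GI_eq
  rw [← hGI]
  refine hG Γ k N (X ++ [Sum.inl h₁]) B₁ (by
    rintro rfl
    rw [List.length_nil] at hl1
    omega) hg hkB H ?_
  intro X'' B'' hr' hcl' hlen' hg' hk'
  obtain ⟨X₂, h', rfl, hk2⟩ := last_killed hk1 hcl'
  have hf2 : Full N R (X₂ ++ [Sum.inl h']) B'' := (hf.reach hr).reach hr'
  refine hA Γ k (fun G => ∀ w, cyc R w ((GI (X₂ ++ [Sum.inl h']) ⊔ G).subgroupOf N) = cyc R w ⊤)
    B'' H hg' ?_ ?_
  · intro B₃ hw3 hg3
    have hE3 : SpQ.E B₃ = SpQ.E B'' := hw3.E_eq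
    have hk3 : ∀ h ∈ B₃, Kl N h := LGC.Kl_list.2 (by rw [hE3]; exact LGC.Kl_list.1 hk')
    have hlen3 : B₃.length = B''.length := hw3.length_eq
    have hf3 : Full N R (X₂ ++ [Sum.inl h']) B₃ := by
      refine hf2.mono ?_
      rw [LGC.GI_append_hl, LGC.GI_append_hl, hE3]
    obtain ⟨s, p, t, h1, h2⟩ := hE _ B₃ hk3 hf3 (by omega)
    refine ⟨s, p, t, h1, ?_⟩
    intro w
    rw [← LGC.GI_append_hl]
    exact h2 w
  · intro B₃ p hw3 hg3 hfull
    have hE3 : SpQ.E (B₃ ++ [p]) = SpQ.E B'' := hw3.E_eq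
    have hk3 : ∀ h ∈ B₃ ++ [p], Kl N h := LGC.Kl_list.2 (by rw [hE3]; exact LGC.Kl_list.1 hk')
    have hlen3 : (B₃ ++ [p]).length = B''.length := hw3.length_eq
    rw [List.length_append, List.length_singleton] at hlen3
    have hf3 : Full N R (X₂ ++ [Sum.inl h']) B₃ := by
      intro w
      rw [LGC.GI_append_hl]
      exact hfull w
    have hr3 : IReach (X ++ hl B) (X₂ ++ hl ((h' :: B₃) ++ [p])) := by
      refine (hr.trans hr').trans ?_
      have h4 := (IReach.of_wreach hw3).left (X₂ ++ [Sum.inl h'])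
      rw [ctx X₂ h' (B₃ ++ [p])] at h4
      exact h4
    refine hH X₂ (h' :: B₃) p hr3 ?_ ?_ (hg3 p (by simp)) ?_
    · intro h hh
      rw [List.cons_append] at hh
      rcases List.mem_cons.1 hh with rfl | hh
      · exact hk2
      · exact hk3 h hh
    · rw [List.length_cons]
      omega
    · intro w
      rw [← ctx X₂ h' B₃]
      exact hf3 w

end

end Pool.Agent.NLG
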