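import Mathlib

/-!
# Near-linear growth (MP_0707f5_ag), linear algebra

Folder of helper35.
-/
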