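import Pool.Agent.NLG.Htw

/-!
# Arbitrary subgroups: growth in the linear range

Helper35, for MP_0707f5_ag (arbitrary subgroups `H` of finite index).
-/

set_option autoImplicit false

namespace Pool.Agent.NLG

open Module
open SpQ (Hd WStep WReach WExt)
open LGP (cyc)

section
variable {K U Γ : Type} [Field K] [AddCommGroup U] [Module K U] [Group Γ] {k : ℕ}
  [FiniteDimensional K U]

/-- **GRO** -/
theorem hgro {H : Subgroup Γ} {R : H →* Module.End K U} {A : List (Hd Γ k) → Prop} (hA : Her A)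
    {m₀ r κ : ℕ} (hG : Gen R A m₀)
    (hcompl : ∀ S, Stb R S → ∃ T, Stb R T ∧ S ⊓ T = ⊥ ∧ S ⊔ T = ⊤)
    (hdim : ∀ S, Stb R S → S ≠ ⊥ → ∃ T, Stb R T ∧ T ≤ S ∧ finrank K T = r ∧ T ≠ ⊥)
    (w : U) (P : List (Hd Γ k))
    (htr : ∀ z, finrank K (cyc R z ⊤) ≤ r → cyc R z ⊤ ≤ Sp H R z P)
    (B : List (Hd Γ k)) (hB : A B) (hf : Fu R (SpQ.E B))
    (hκ : 8 * κ < r) (hlen : m₀ + 2 * r + 8 * κ ≤ B.length)
    (hgr : ∀ (B' : List (Hd Γ k)) (p : Hd Γ k),
      WReach B (B' ++ [p]) → Fu R (SpQ.E B') →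
      finrank K (Sp H R w ([p] ++ P)) ≤ finrank K (Sp H R w P) + κ) :
    finrank K (cyc R w ⊤) ≤ finrank K (Sp H R w P) + 4 * κ := by
  have hWone : im (1 : U ≃ₗ[K] U) (Sp H R w P) = Sp H R w P := im_one _
  obtain ⟨i, hi, C, Z, Z', ⟨hr, hl1, hf'⟩, hYZ, hZZ', hd1, hd2, g, hg, hd3⟩ :=
    growth' (Sp H R w P) κ
    (β := List (Hd Γ k) × List (Hd Γ k))
    (fun i C => WReach B (C.1 ++ C.2) ∧ C.2.length = i ∧ Fu R (SpQ.E C.1))
    (fun C => {g | g = 1 ∨ ∃ x : H, (x : Γ) ∈ SpQ.fc C.2 (-1) ∧ g = Rg R x})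
    (fun C => {g | ∃ y ∈ Hs R C.1, g = Rg R y})
    ⟨(B, []), ⟨by simpa using WReach.refl _, rfl, hf⟩, Or.inl rfl⟩
    (by
      rintro i hi ⟨B', C⟩ ⟨hr, hl1, hf'⟩ _ ⟨y, ⟨B'', p, h1, h4, h5⟩, rfl⟩
      dsimp only at hr hl1 hf' h1
      refine ⟨(B'', [p] ++ C), ⟨?_, ?_, h4⟩, ?_, ?_⟩
      · dsimp only
        refine hr.trans ?_
        have h6 := h1.right C
        rw [List.append_assoc] at h6
        exact h6
      · simp only [List.length_append, List.length_singleton]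
        omega
      · rintro g (rfl | ⟨x, hx, rfl⟩)
        · exact Or.inl rfl
        · exact Or.inr ⟨x, SpQ.fc_mono (WExt.drop_left [p] C) _ hx, rfl⟩
      · rintro g (rfl | ⟨x, hx, rfl⟩)
        · exact Or.inr ⟨y, SpQ.fc_mono (WExt.drop_right [p] C) _ h5, mul_one _⟩
        · refine Or.inr ⟨y * x, ?_, Rg_mul R y x⟩
          have h6 := SpQ.fc_mul h5 hx
          have e : (-1 : ZMod k) + -1 + 1 = -1 := by ring
          rw [e] at h6
          exact h6)
    (by
      rintro i hi ⟨B', C⟩ ⟨hr, hl1, hf'⟩ g hg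
      dsimp only at hr hl1 hf'
      rcases hg with rfl | ⟨x, ⟨y, o, junk, hj⟩, rfl⟩
      · rw [hWone, sup_idem]
        omega
      · have h1 := hgr (B' ++ junk) (((x : Γ), y), ((-1 : ZMod k), o)) (by
          refine hr.trans ?_
          have h2 := hj.left B'
          rw [← List.append_assoc] at h2
          exact h2) (hf'.mono (E_left B' junk))
        refine le_trans (Submodule.finrank_mono ?_) h1
        refine sup_le (Sp_mono (WExt.drop_left _ P)) ?_
        intro u hu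
        obtain ⟨s, hs, rfl⟩ := mem_im.1 hu
        exact Sp_mul (x := x) ⟨y, o, WExt.refl _⟩ hs)
  obtain ⟨B', C⟩ := C
  dsimp only at hr hl1 hf' hYZ hg
  have hlr := hr.length_eq
  rw [List.length_append] at hlr
  -- a stable subspace between `Z` and `Z'`
  obtain ⟨M, hM, hZM, hMZ'⟩ := lin (Stb R) r
    (by
      intro x s hs
      rw [Submodule.mem_bot] at hs ⊢
      rw [hs, map_zero])
    (by
      intro S T hS hT x s hs
      obtain ⟨a, ha, b, hb, rfl⟩ := Submodule.mem_sup.1 hs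
      rw [map_add]
      exact Submodule.add_mem_sup (hS x a ha) (hT x b hb))
    (by
      intro S T hS hT x s hs
      obtain ⟨h1, h2⟩ := Submodule.mem_inf.1 hs
      exact Submodule.mem_inf.2 ⟨hS x s h1, hT x s h2⟩)
    hcompl hdim {f | ∃ y ∈ Hs R B', f = R y}
    (by
      rintro S hS _ ⟨y, -, rfl⟩ s hs
      exact hS y s hs)
    (by
      intro z Q hQ hz hd W hW
      refine ⟨cyc R z ⊤, Stb.cyc R z, LGP.self_mem_cyc _ _ _, ?_⟩
      have h1 : finrank K (cyc R z ⊤) ≤ 2 * r :=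
        (Submodule.finrank_mono (cyc_le_stb hQ hz)).trans hd
      exact htw hA hG B' (hA B B' C hB hr).1 hf' z (by omega) W fun y hy => hW _ ⟨y, hy, rfl⟩)
    (finrank K U) ⊤ Z Z' (Submodule.finrank_le _) (fun _ _ _ => Submodule.mem_top) hZZ' le_top
    (by
      rintro _ ⟨y, hy, rfl⟩ z hz
      exact hYZ _ ⟨y, hy, rfl⟩ (mem_im.2 ⟨z, hz, rfl⟩))
    (by omega)
  have hwM : w ∈ M := by
    by_contra hcon
    have h1 := drop hcompl hdim w P htr hM hcon
    have h2 : im g M = M := by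
      rcases hg with rfl | ⟨x, -, rfl⟩
      · exact im_one M
      · refine Submodule.eq_of_le_of_finrank_le ?_ (by rw [finrank_im])
        intro u hu
        obtain ⟨s, hs, rfl⟩ := mem_im.1 hu
        exact hM x s hs
    have h3 : finrank K (im g (Sp H R w P) ⊓ Z : Submodule K U) ≤
        finrank K (im g (Sp H R w P) ⊓ M : Submodule K U) :=
      Submodule.finrank_mono (inf_le_inf le_rfl hZM)
    have h4 : finrank K (im g (Sp H R w P) ⊓ M : Submodule K U) =
        finrank K (Sp H R w P ⊓ M : Submodule K U) := by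
      conv_lhs => rw [← h2]
      rw [← im_inf, finrank_im]
    omega
  have h1 := Submodule.finrank_mono ((cyc_le_stb hM hwM).trans hMZ')
  omega

end

end Pool.Agent.NLG
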