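import Pool.Agent.NLG.Gro

/-!
# Arbitrary subgroups: full lists and spare letters

Helper35, for MP_0707f5_ag (arbitrary subgroups `H` of finite index).

`H` is any subgroup of `Γ` and `R` a representation of `H`.  `Fu R G`: the part of `H` in `G` generates
the same modules as `H`.  `Hs R B`: the spare letters of the list `B`: the elements of `H` which are
letters of the last handle of a list `B' ++ [p]` which can be reached from `B`, with `E B'` full.
`Gen R A m₀`: for all full lists with at least `m₀` handles a subspace which is stable under the spare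
letters is stable under `H`.
-/

set_option autoImplicit false

namespace Pool.Agent.NLG

open Module
open SpQ (Hd WStep WReach WExt)
open LGP (cyc)

section
variable {K U Γ : Type} [Field K] [AddCommGroup U] [Module K U] [Group Γ] {k : ℕ}

/-- the part of `H` in `G` generates the same modules as `H` -/
def Fu {H : Subgroup Γ} (R : H →* Module.End K U) (G : Subgroup Γ) : Prop :=
  ∀ w, cyc R w (G.subgroupOf H) = cyc R w ⊤

/-- the spare letters of a list -/
def Hs {H : Subgroup Γ} (R : H →* Module.End K U) (B : List (Hd Γ k)) : Set H :=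
  {y | ∃ (B' : List (Hd Γ k)) (p : Hd Γ k), WReach B (B' ++ [p]) ∧ Fu R (SpQ.E B') ∧
    (y : Γ) ∈ SpQ.fc [p] (-1)}

/-- sets of lists which are closed under moves and under parts -/
def Her (A : List (Hd Γ k) → Prop) : Prop :=
  ∀ B B' P, A B → WReach B (B' ++ P) → A B' ∧ A P

/-- **GEN** -/
def Gen {H : Subgroup Γ} (R : H →* Module.End K U) (A : List (Hd Γ k) → Prop) (m₀ : ℕ) : Prop :=
  ∀ B : List (Hd Γ k), A B → Fu R (SpQ.E B) → m₀ ≤ B.length →
    (Hs R B).Nonempty ∧ (∃ y : H, (y : Γ) ∈ SpQ.fc B 0) ∧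
    ∀ W : Submodule K U, (∀ y ∈ Hs R B, ∀ s ∈ W, R y s ∈ W) → Stb R W

variable {H : Subgroup Γ} {R : H →* Module.End K U}

theorem Fu.mono {G G' : Subgroup Γ} (hf : Fu R G) (h : G ≤ G') : Fu R G' := by
  intro w
  refine le_antisymm (LGP.cyc_mono R w le_top) ?_
  rw [← hf w]
  exact LGP.cyc_mono R w (Subgroup.comap_mono h)

/-- sublists at the left end -/
theorem E_left (A B : List (Hd Γ k)) : SpQ.E A ≤ SpQ.E (A ++ B) := by
  rw [SpQ.E_append]
  exact le_sup_left

/-- the product of spare letters of a rest and of letters of a block -/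
theorem hs_mul {B B' P B'' : List (Hd Γ k)} {q : Hd Γ k} {y x : H} (hr : WReach B (B' ++ P))
    (h1 : WReach B' (B'' ++ [q])) (h2 : Fu R (SpQ.E B'')) (h3 : (y : Γ) ∈ SpQ.fc [q] (-1))
    (hx : (x : Γ) ∈ SpQ.fc P (-1)) : y * x ∈ Hs R B := by
  have h4 : ((y * x : H) : Γ) ∈ SpQ.fc ([q] ++ P) (-1) := by
    have h5 := SpQ.fc_mul h3 hx
    have e : (-1 : ZMod k) + -1 + 1 = -1 := by ring
    rw [e] at h5
    exact h5
  obtain ⟨z, o, junk, hj⟩ := h4
  refine ⟨B'' ++ junk, _, ?_, h2.mono (E_left B'' junk), ⟨z, o, WExt.refl _⟩⟩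
  refine hr.trans ((h1.right P).trans ?_)
  have h5 := hj.left B''
  rw [List.append_assoc, List.append_assoc]
  exact h5

/-- a spare letter of a rest is a spare letter -/
theorem hs_rest {B B' P B'' : List (Hd Γ k)} {q : Hd Γ k} {y : H} (hr : WReach B (B' ++ P))
    (h1 : WReach B' (B'' ++ [q])) (h2 : Fu R (SpQ.E B'')) (h3 : (y : Γ) ∈ SpQ.fc [q] (-1)) :
    y ∈ Hs R B := by
  have h4 : (y : Γ) ∈ SpQ.fc ([q] ++ P) (-1) := SpQ.fc_mono (WExt.drop_right [q] P) _ h3
  obtain ⟨z, o, junk, hj⟩ := h4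
  refine ⟨B'' ++ junk, _, ?_, h2.mono (E_left B'' junk), ⟨z, o, WExt.refl _⟩⟩
  refine hr.trans ((h1.right P).trans ?_)
  have h5 := hj.left B''
  rw [List.append_assoc, List.append_assoc]
  exact h5

variable [FiniteDimensional K U]

/-- the growth of `Sp R z P` up to the cyclic module -/
theorem htw_grow {A : List (Hd Γ k) → Prop} (hA : Her A) {m₀ : ℕ} (hG : Gen R A m₀)
    (B : List (Hd Γ k)) (hB : A B) (hf : Fu R (SpQ.E B)) (z : U)
    (hlen : m₀ + finrank K (cyc R z ⊤) ≤ B.length) :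
    ∀ m : ℕ, m < finrank K (cyc R z ⊤) →
    ∃ (B' P : List (Hd Γ k)), WReach B (B' ++ P) ∧ P.length ≤ m ∧
      Fu R (SpQ.E B') ∧ (cyc R z ⊤ ≤ Sp H R z P ∨ m + 1 ≤ finrank K (Sp H R z P)) := by
  intro m
  induction m with
  | zero =>
    intro hm
    refine ⟨B, [], by simpa using WReach.refl _, by simp, hf, Or.inr ?_⟩
    rw [zero_add, Submodule.one_le_finrank_iff]
    intro h
    have h1 := Sp_self (N := H) (R := R) z ([] : List (Hd Γ k))
    rw [h, Submodule.mem_bot] at h1
    subst h1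
    have h2 : cyc R (0 : U) (⊤ : Subgroup H) = ⊥ := by
      rw [eq_bot_iff]
      refine LGP.cyc_le (Submodule.zero_mem _) ?_
      intro x _ s hs
      rw [Submodule.mem_bot] at hs
      rw [hs, map_zero]
      exact Submodule.zero_mem _
    rw [h2, finrank_bot] at hm
    omega
  | succ m ih =>
    intro hm
    obtain ⟨B', P, hr, hl2, hf', hdone | hdim⟩ := ih (by omega)
    · exact ⟨B', P, hr, by omega, hf', Or.inl hdone⟩
    have hl1 := hr.length_eq
    rw [List.length_append] at hl1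
    by_cases hst : ∃ (B'' : List (Hd Γ k)) (p : Hd Γ k), WReach B' (B'' ++ [p]) ∧
        Fu R (SpQ.E B'') ∧ ¬ Sp H R z ([p] ++ P) ≤ Sp H R z P
    · obtain ⟨B'', p, h1, h4, h5⟩ := hst
      refine ⟨B'', [p] ++ P, ?_, ?_, h4, Or.inr ?_⟩
      · have h6 := h1.right P
        rw [List.append_assoc] at h6
        exact hr.trans h6
      · simp only [List.length_append, List.length_singleton]
        omega
      · have h6 : Sp H R z P ≤ Sp H R z ([p] ++ P) := Sp_mono (WExt.drop_left [p] P)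
        have h7 := Submodule.finrank_lt_finrank_of_lt (lt_of_le_not_ge h6 h5)
        omega
    · push Not at hst
      refine ⟨B', P, hr, by omega, hf', Or.inl ?_⟩
      obtain ⟨-, -, h1⟩ := hG B' (hA B B' P hB hr).1 hf' (by omega)
      refine cyc_le_stb (h1 (Sp H R z P) ?_) (Sp_self z P)
      rintro y ⟨B'', p, h2, h3, h4⟩ s hs
      exact hst B'' p h2 h3 (Sp_mul h4 hs)

/-- **TW** -/
theorem htw {A : List (Hd Γ k) → Prop} (hA : Her A) {m₀ : ℕ} (hG : Gen R A m₀)
    (B : List (Hd Γ k)) (hB : A B) (hf : Fu R (SpQ.E B)) (z : U)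
    (hlen : m₀ + finrank K (cyc R z ⊤) ≤ B.length) (W : Submodule K U)
    (hW : ∀ y ∈ Hs R B, R y z ∈ W) : cyc R z ⊤ ≤ W := by
  by_cases hd : finrank K (cyc R z ⊤) = 0
  · rw [Submodule.finrank_eq_zero.1 hd]
    exact bot_le
  obtain ⟨B', P, hr, hl2, hf', hdone⟩ := htw_grow hA hG B hB hf z hlen
    (finrank K (cyc R z ⊤) - 1) (by omega)
  have hl1 := hr.length_eq
  rw [List.length_append] at hl1
  have hfull : cyc R z ⊤ ≤ Sp H R z P := by
    rcases hdone with h | h
    · exact h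
    · have h1 := Submodule.eq_of_le_of_finrank_le (Sp_le_cyc (N := H) (R := R) z P) (by omega)
      exact h1.ge
  obtain ⟨⟨y₀, B'', q, g1, g2, g3⟩, -, -⟩ := hG B' (hA B B' P hB hr).1 hf' (by omega)
  have h1 : ∀ v ∈ Sp H R z P, R y₀ v ∈ W := by
    intro v hv
    unfold Sp at hv
    refine Submodule.span_induction (p := fun v _ => R y₀ v ∈ W) ?_ ?_ ?_ ?_ hv
    · rintro v (rfl | ⟨x, hx, rfl⟩)
      · exact hW _ (hs_rest hr g1 g2 g3)
      · rw [← Module.End.mul_apply, ← map_mul]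
        exact hW _ (hs_mul hr g1 g2 g3 hx)
    · rw [map_zero]
      exact Submodule.zero_mem _
    · intro a b _ _ ha hb
      rw [map_add]
      exact Submodule.add_mem _ ha hb
    · intro c a _ ha
      rw [map_smul]
      exact Submodule.smul_mem _ c ha
  intro v hv
  have h2 : R y₀⁻¹ v ∈ cyc R z ⊤ :=
    LGP.le_stb_cyc (R := R) (w := z) (⊤ : Subgroup H) (Subgroup.mem_top _) v hv
  have h3 := h1 _ (hfull h2)
  rw [← Module.End.mul_apply, ← map_mul, mul_inv_cancel, map_one] at h3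
  exact h3

/-- **BLO** -/
theorem hblo {A : List (Hd Γ k) → Prop} (hA : Her A) {m₀ : ℕ} (hG : Gen R A m₀)
    (P : List (Hd Γ k)) (hP : A P) (hf : Fu R (SpQ.E P)) (z : U)
    (hlen : m₀ + finrank K (cyc R z ⊤) ≤ P.length) : cyc R z ⊤ ≤ Sp H R z P :=
  htw hA hG P hP hf z hlen _ (by
    rintro y ⟨B', p, h1, -, h3⟩
    exact mem_Sp (SpQ.fc_mono ⟨B', h1⟩ _ h3))

end

end Pool.Agent.NLG
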