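import Pool.Agent.NLG.Stp
import Pool.Agent.LGC.Csp

/-!
# The spare letters of a full list act transitively on small modules

Helper35, for MP_0707f5_ag (linear range).

`Ys N R X B`: the first components of weight `-1` of the handles `p` with `X' ++ hl (B' ++ [p])`
reachable from `X ++ hl B`, all killed, and `(X', B')` full.  If `B` has at least
`m₀ + dim (cyc R z ⊤) + 1` handles then a subspace which contains `R y z` for these `y` contains
`cyc R z ⊤`.
-/

set_option autoImplicit false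

namespace Pool.Agent.NLG

open Module
open SpQ (Hd WStep WReach WExt Good bare bd cj1)
open LGP (cyc)
open LGC (It hl GI Kl IReach cls St_All St_Gek St_Vek)

section
variable {K U Γ : Type} [Field K] [AddCommGroup U] [Module K U] [Group Γ] {k : ℕ}

/-- the spare letters -/
def Ys (N : Subgroup Γ) (R : N →* Module.End K U) (X : List (It Γ k)) (B : List (Hd Γ k)) :
    Set N :=
  {y | ∃ (X' : List (It Γ k)) (B' : List (Hd Γ k)) (p : Hd Γ k),
    IReach (X ++ hl B) (X' ++ hl (B' ++ [p])) ∧ (∀ h ∈ B' ++ [p], Kl N h) ∧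
    B'.length + 1 = B.length ∧ Full N R X' B' ∧ (y : Γ) ∈ SpQ.fc [p] (-1)}

/-- the span of `z` and of the images of `z` under the first components of weight `-1` -/
def Sp (N : Subgroup Γ) (R : N →* Module.End K U) (z : U) (P : List (Hd Γ k)) :
    Submodule K U :=
  Submodule.span K (insert z {u | ∃ x : N, (x : Γ) ∈ SpQ.fc P (-1) ∧ R x z = u})

variable {N : Subgroup Γ} {R : N →* Module.End K U}

theorem Sp_self (z : U) (P : List (Hd Γ k)) : z ∈ Sp N R z P :=
  Submodule.subset_span (Set.mem_insert _ _)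

theorem mem_Sp {z : U} {P : List (Hd Γ k)} {x : N} (hx : (x : Γ) ∈ SpQ.fc P (-1)) :
    R x z ∈ Sp N R z P :=
  Submodule.subset_span (Or.inr ⟨x, hx, rfl⟩)

theorem Sp_mono {z : U} {P P' : List (Hd Γ k)} (h : WExt P' P) :
    Sp N R z P ≤ Sp N R z P' := by
  refine Submodule.span_mono (Set.insert_subset_insert ?_)
  rintro u ⟨x, hx, rfl⟩
  exact ⟨x, SpQ.fc_mono h (-1) hx, rfl⟩

theorem Sp_le {z : U} {P : List (Hd Γ k)} {M : Submodule K U} (hz : z ∈ M)
    (h : ∀ x : N, (x : Γ) ∈ SpQ.fc P (-1) → R x z ∈ M) : Sp N R z P ≤ M := by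
  unfold Sp
  rw [Submodule.span_le]
  rintro u (rfl | ⟨x, hx, rfl⟩)
  · exact hz
  · exact h x hx

theorem Sp_le_cyc (z : U) (P : List (Hd Γ k)) : Sp N R z P ≤ cyc R z ⊤ :=
  Sp_le (LGP.self_mem_cyc _ _ _) fun x _ =>
    Submodule.subset_span ⟨x, Subgroup.mem_top _, rfl⟩

/-- the product of letters of disjoint blocks is a letter -/
theorem Sp_mul {z : U} {P Q : List (Hd Γ k)} {x : N} (hx : (x : Γ) ∈ SpQ.fc Q (-1)) {s : U}
    (hs : s ∈ Sp N R z P) : R x s ∈ Sp N R z (Q ++ P) := by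
  unfold Sp at hs
  refine Submodule.span_induction (p := fun s _ => R x s ∈ Sp N R z (Q ++ P)) ?_ ?_ ?_ ?_ hs
  · rintro u (rfl | ⟨y, hy, rfl⟩)
    · exact mem_Sp (SpQ.fc_mono (WExt.drop_right Q P) _ hx)
    · rw [← Module.End.mul_apply, ← map_mul]
      have h4 := SpQ.fc_mul hx hy
      have e : (-1 : ZMod k) + -1 + 1 = -1 := by ring
      rw [e] at h4
      exact mem_Sp h4
  · rw [map_zero]
    exact Submodule.zero_mem _
  · intro a b _ _ ha hb
    rw [map_add]
    exact Submodule.add_mem _ ha hb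
  · intro c a _ ha
    rw [map_smul]
    exact Submodule.smul_mem _ c ha

theorem app_ctx (X : List (It Γ k)) (A B : List (Hd Γ k)) :
    X ++ hl A ++ hl B = X ++ hl (A ++ B) := by
  rw [LGC.hl_append, List.append_assoc]

/-- a good handle whose letters preserve `S` -/
theorem good_le_sg [FiniteDimensional K U] {S : Submodule K U} {p : Hd Γ k} (hg : Good p)
    (hk : Kl N p) (h : ∀ x : N, (x : Γ) ∈ SpQ.fc [p] (-1) → ∀ s ∈ S, R x s ∈ S) :
    SpQ.E [p] ≤ LGC.sg R S := by
  obtain ⟨⟨x, y⟩, o⟩ := p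
  obtain rfl : o = (-1, 1) := hg
  rw [SpQ.E_singleton_le]
  have hx : x ∈ N := hk.1
  have hy : y ∈ N := hk.2
  refine ⟨⟨⟨x, hx⟩, h ⟨x, hx⟩ ⟨y, 1, WExt.refl _⟩, rfl⟩, ?_⟩
  have h4 : (⟨y, hy⟩ : N)⁻¹ ∈ LGP.stb R S :=
    h (⟨y, hy⟩ : N)⁻¹ ⟨_, _, WExt.rot x y (-1) 1⟩
  exact ⟨⟨y, hy⟩, inv_mem_iff.1 h4, rfl⟩

variable [FiniteDimensional K U]

/-- the growth of `Sp R z P` up to the cyclic module -/
theorem tw_grow (hA : St_All) (hG : St_Gek) [N.Normal] {m₀ : ℕ} (hE : Ess k N R m₀)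
    (X : List (It Γ k)) (B : List (Hd Γ k)) (hB : ∀ h ∈ B, Kl N h) (hf : Full N R X B) (z : U)
    (hlen : m₀ + finrank K (cyc R z ⊤) + 1 ≤ B.length) :
    ∀ m : ℕ, m < finrank K (cyc R z ⊤) →
    ∃ (X' : List (It Γ k)) (B' P : List (Hd Γ k)), IReach (X ++ hl B) (X' ++ hl (B' ++ P)) ∧
      (∀ h ∈ B' ++ P, Kl N h) ∧ B'.length + P.length = B.length ∧ P.length ≤ m ∧
      Full N R X' B' ∧ (cyc R z ⊤ ≤ Sp N R z P ∨ m + 1 ≤ finrank K (Sp N R z P)) := by
  intro m
  induction m with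
  | zero =>
    intro hm
    refine ⟨X, B, [], by simpa using IReach.refl _, by simpa using hB, by simp, by simp, hf,
      Or.inr ?_⟩
    rw [zero_add, Submodule.one_le_finrank_iff]
    intro h
    have h1 := Sp_self (N := N) (R := R) z ([] : List (Hd Γ k))
    rw [h, Submodule.mem_bot] at h1
    subst h1
    have h2 : cyc R (0 : U) (⊤ : Subgroup N) = ⊥ := by
      rw [eq_bot_iff]
      refine LGP.cyc_le (Submodule.zero_mem _) ?_
      intro x _ s hs
      rw [Submodule.mem_bot] at hs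
      rw [hs, map_zero]
      exact Submodule.zero_mem _
    rw [h2, finrank_bot] at hm
    omega
  | succ m ih =>
    intro hm
    obtain ⟨X', B', P, hr, hk, hl1, hl2, hf', hdone | hdim⟩ := ih (by omega)
    · exact ⟨X', B', P, hr, hk, hl1, by omega, hf', Or.inl hdone⟩
    have hkB' : ∀ h ∈ B', Kl N h := fun h hh => hk h (List.mem_append_left _ hh)
    have hkP : ∀ h ∈ P, Kl N h := fun h hh => hk h (List.mem_append_right _ hh)
    by_cases hst : ∃ (X'' : List (It Γ k)) (B'' : List (Hd Γ k)) (p : Hd Γ k),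
        IReach (X' ++ hl B') (X'' ++ hl (B'' ++ [p])) ∧ (∀ h ∈ B'' ++ [p], Kl N h) ∧
        B''.length + 1 = B'.length ∧ Full N R X'' B'' ∧
        ¬ Sp N R z ([p] ++ P) ≤ Sp N R z P
    · obtain ⟨X'', B'', p, h1, h2, h3, h4, h5⟩ := hst
      refine ⟨X'', B'', [p] ++ P, ?_, ?_, ?_, ?_, h4, Or.inr ?_⟩
      · refine hr.trans ?_
        have h6 := h1.right (hl P)
        rw [app_ctx, app_ctx, List.append_assoc] at h6
        exact h6
      · intro h hh
        rw [← List.append_assoc] at hh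
        rcases List.mem_append.1 hh with hh | hh
        · exact h2 h hh
        · exact hkP h hh
      · simp only [List.length_append, List.length_singleton]
        omega
      · simp only [List.length_append, List.length_singleton]
        omega
      · have h6 : Sp N R z P ≤ Sp N R z ([p] ++ P) := Sp_mono (WExt.drop_left [p] P)
        have h7 := Submodule.finrank_lt_finrank_of_lt
          (lt_of_le_not_ge h6 h5)
        omega
    · push Not at hst
      refine ⟨X', B', P, hr, hk, hl1, by omega, hf', Or.inl ?_⟩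
      have key : N ⊓ GI (X' ++ hl B') ≤ LGC.sg R (Sp N R z P) := by
        refine stp hA hG hE X' B' hkB' hf' (by omega) _ ?_
        intro X'' B'' p h1 h2 h3 h4 h5
        refine good_le_sg h4 (h2 p (by simp)) ?_
        intro x hx s hs
        exact hst X'' B'' p h1 h2 h3 h5 (Sp_mul hx hs)
      rw [← hf' z]
      exact LGP.cyc_le (Sp_self z P) (LGC.subgroupOf_le_stb R _ _ key)

/-- **TW**. -/
theorem tw (hA : St_All) (hG : St_Gek) [N.Normal] {m₀ : ℕ} (hE : Ess k N R m₀)
    (X : List (It Γ k)) (B : List (Hd Γ k)) (hB : ∀ h ∈ B, Kl N h) (hf : Full N R X B) (z : U)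
    (hlen : m₀ + finrank K (cyc R z ⊤) + 1 ≤ B.length) (W : Submodule K U)
    (hW : ∀ y ∈ Ys N R X B, R y z ∈ W) : cyc R z ⊤ ≤ W := by
  by_cases hd : finrank K (cyc R z ⊤) = 0
  · rw [Submodule.finrank_eq_zero.1 hd]
    exact bot_le
  obtain ⟨X', B', P, hr, hk, hl1, hl2, hf', hdone⟩ := tw_grow hA hG hE X B hB hf z hlen
    (finrank K (cyc R z ⊤) - 1) (by omega)
  have hfull : cyc R z ⊤ ≤ Sp N R z P := by
    rcases hdone with h | h
    · exact h
    · have h1 := Submodule.eq_of_le_of_finrank_le (Sp_le_cyc (N := N) (R := R) z P) (by omega)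
      exact h1.ge
  have hkB' : ∀ h ∈ B', Kl N h := fun h hh => hk h (List.mem_append_left _ hh)
  have hkP : ∀ h ∈ P, Kl N h := fun h hh => hk h (List.mem_append_right _ hh)
  -- a good spare handle of `B'`
  obtain ⟨h₁, B₁, hr1, hg1, hk1, hkB1, hl3⟩ := normal (X := X') hkB' (by
    rintro rfl
    rw [List.length_nil] at hl1
    omega)
  obtain ⟨s, q, t, rfl, hf1⟩ := hE _ B₁ hkB1 (hf'.reach hr1) (by omega)
  obtain ⟨u, -, hr2⟩ := IReach.move_right' (hl t) (Sum.inl q)
  have hgq : Good (cj1 u q) := (hg1 q (by simp)).cj1 u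
  have hkq : Kl N (cj1 u q) := LGC.Kl.cj1 (hkB1 q (by simp)) u
  obtain ⟨q', hq'⟩ : ∃ q', q' = cj1 u q := ⟨_, rfl⟩
  rw [← hq'] at hgq hkq
  have hr3 : IReach (X' ++ hl B') (X' ++ hl ((h₁ :: (s ++ t)) ++ [q'])) := by
    refine hr1.trans ?_
    have h1 : (X' ++ [Sum.inl h₁]) ++ hl (s ++ q :: t) =
        (X' ++ [Sum.inl h₁]) ++ hl s ++ ((Sum.inl q : It Γ k) :: hl t) := by
      rw [← LGC.hl_cons, app_ctx]
    have h2 : X' ++ hl ((h₁ :: (s ++ t)) ++ [q']) =
        (X' ++ [Sum.inl h₁]) ++ hl s ++ (hl t ++ [Sum.inl q']) := by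
      have e1 : (h₁ :: (s ++ t)) ++ [q'] = h₁ :: (s ++ (t ++ [q'])) := by simp
      have e2 : hl t ++ [(Sum.inl q' : It Γ k)] = hl (t ++ [q']) := by
        rw [LGC.hl_append]
        rfl
      rw [e1, e2, ← ctx, app_ctx]
    rw [h1, h2]
    have h3 := hr2.left ((X' ++ [Sum.inl h₁]) ++ hl s)
    have h4 : LGC.icj u (Sum.inl q : It Γ k) = Sum.inl q' := by
      rw [hq']
      rfl
    rw [h4] at h3
    exact h3
  have hfst : Full N R X' (h₁ :: (s ++ t)) := by
    intro v
    rw [← ctx X' h₁ (s ++ t)]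
    exact hf1 v
  have hkst : ∀ h ∈ h₁ :: (s ++ t), Kl N h := by
    intro h hh
    rcases List.mem_cons.1 hh with rfl | hh
    · exact hk1
    · refine hkB1 h ?_
      rcases List.mem_append.1 hh with hh | hh
      · exact List.mem_append_left _ hh
      · exact List.mem_append_right _ (List.mem_cons_of_mem _ hh)
  have hlst : (h₁ :: (s ++ t)).length + 1 = B'.length := by
    simp only [List.length_append, List.length_cons] at hl3 ⊢
    omega
  -- the letter `y₀`
  obtain ⟨⟨y₀, y₁⟩, o⟩ := q'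
  obtain rfl : o = (-1, 1) := hgq
  have hy₀ : y₀ ∈ N := hkq.1
  have hfy : y₀ ∈ SpQ.fc [(((y₀, y₁), ((-1 : ZMod k), (1 : ZMod k))) : Hd Γ k)] (-1) :=
    ⟨y₁, 1, WExt.refl _⟩
  -- all letters of `[q'] ++ P` are spare letters
  have hall : ∀ x : N, (x : Γ) ∈ SpQ.fc ([(((y₀, y₁), ((-1 : ZMod k), (1 : ZMod k))) : Hd Γ k)] ++ P)
      (-1) → x ∈ Ys N R X B := by
    intro x hx
    obtain ⟨y, o, junk, hj⟩ := hx
    refine ⟨X', (h₁ :: (s ++ t)) ++ junk, (((x : Γ), y), ((-1 : ZMod k), o)), ?_, ?_, ?_, ?_,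
      ⟨y, o, WExt.refl _⟩⟩
    · refine hr.trans ?_
      have h1 := hr3.right (hl P)
      rw [app_ctx, app_ctx, List.append_assoc] at h1
      refine h1.trans ?_
      have h2 := (IReach.of_wreach hj).left (X' ++ hl (h₁ :: (s ++ t)))
      rw [app_ctx, app_ctx, ← List.append_assoc (h₁ :: (s ++ t)) junk] at h2
      exact h2
    · have hE2 := hj.E_eq
      have h1 : ∀ h ∈ junk ++ [((((x : Γ), y), ((-1 : ZMod k), o)) : Hd Γ k)], Kl N h := by
        rw [LGC.Kl_list, hE2, ← LGC.Kl_list]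
        intro h hh
        rcases List.mem_append.1 hh with hh | hh
        · rw [List.mem_singleton.1 hh]
          exact hkq
        · exact hkP h hh
      intro h hh
      rw [List.append_assoc] at hh
      rcases List.mem_append.1 hh with hh | hh
      · exact hkst h hh
      · exact h1 h hh
    · have h1 := hj.length_eq
      simp only [List.length_append, List.length_singleton] at h1 hlst ⊢
      omega
    · refine hfst.mono (LGC.GI_mono ?_)
      intro i hi
      rw [LGC.hl_append, ← List.append_assoc]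
      exact List.mem_append_left _ hi
  -- the conclusion
  have h1 : ∀ v ∈ Sp N R z P, R ⟨y₀, hy₀⟩ v ∈ W := by
    intro v hv
    unfold Sp at hv
    refine Submodule.span_induction (p := fun v _ => R ⟨y₀, hy₀⟩ v ∈ W) ?_ ?_ ?_ ?_ hv
    · rintro v (rfl | ⟨x, hx, rfl⟩)
      · exact hW _ (hall ⟨y₀, hy₀⟩ (SpQ.fc_mono (WExt.drop_right _ P) _ hfy))
      · rw [← Module.End.mul_apply, ← map_mul]
        have h4 := SpQ.fc_mul hfy hx
        have e : (-1 : ZMod k) + -1 + 1 = -1 := by ring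
        rw [e] at h4
        exact hW _ (hall (⟨y₀, hy₀⟩ * x) h4)
    · rw [map_zero]
      exact Submodule.zero_mem _
    · intro a b _ _ ha hb
      rw [map_add]
      exact Submodule.add_mem _ ha hb
    · intro c a _ ha
      rw [map_smul]
      exact Submodule.smul_mem _ c ha
  intro v hv
  have h2 : R (⟨y₀, hy₀⟩ : N)⁻¹ v ∈ cyc R z ⊤ :=
    LGP.le_stb_cyc (R := R) (w := z) (⊤ : Subgroup N) (Subgroup.mem_top _) v hv
  have h3 := h1 _ (hfull h2)
  rw [← Module.End.mul_apply, ← map_mul, mul_inv_cancel, map_one] at h3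
  exact h3

end

end Pool.Agent.NLG
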